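import Mathlib

/-!
# The box principle modulo many primes
-/

namespace Pool.Agent.H19.RD

open Finset

/-- the value at `(x, y, m)` of the form of degree `2 k` with coefficients `c i j` (`i, j < k`) -/
def ev {R : Type*} [CommRing R] (k : ℕ) (c : Fin k × Fin k → ℤ) (r : R × R × R) : R :=
  ∑ ij : Fin k × Fin k,
    (c ij : R) * (r.1 ^ (ij.1 : ℕ) * r.2.1 ^ (ij.2 : ℕ) * r.2.2 ^ (2 * k - ij.1 - ij.2))

lemma ev_smul {R : Type*} [CommRing R] (k : ℕ) (c : Fin k × Fin k → ℤ) (l x y m : R) :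
    ev k c (l * x, l * y, l * m) = l ^ (2 * k) * ev k c (x, y, m) := by
  unfold ev
  rw [Finset.mul_sum]
  refine Finset.sum_congr rfl fun ij _ => ?_
  obtain ⟨i, j⟩ := ij
  have hi := i.2
  have hj := j.2
  have h : 2 * k = (i : ℕ) + (j : ℕ) + (2 * k - i - j) := by omega
  simp only [mul_pow]
  conv_rhs => rw [h]
  rw [pow_add, pow_add]
  have h2 : (i : ℕ) + (j : ℕ) + (2 * k - i - j) - i - j = 2 * k - i - j := by omega
  rw [h2]
  ring

lemma ev_cast {R : Type*} [CommRing R] (k : ℕ) (c : Fin k × Fin k → ℤ) (x y m : ℤ) :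
    ((ev k c (x, y, m) : ℤ) : R) = ev k c ((x : R), (y : R), (m : R)) := by
  unfold ev
  push_cast
  rfl

lemma ev_sub {R : Type*} [CommRing R] (k : ℕ) (c d : Fin k × Fin k → ℤ) (r : R × R × R) :
    ev k (c - d) r = ev k c r - ev k d r := by
  unfold ev
  rw [← Finset.sum_sub_distrib]
  refine Finset.sum_congr rfl fun ij _ => ?_
  simp only [Pi.sub_apply]
  push_cast
  ring

lemma ev_bound (k : ℕ) (c : Fin k × Fin k → ℤ) (B H : ℕ) (hB : ∀ ij, |c ij| ≤ B)
    (x y m : ℤ) (hH : 1 ≤ H) (hx : |x| ≤ H) (hy : |y| ≤ H) (hm : |m| ≤ H) :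
    |ev k c (x, y, m)| ≤ (k ^ 2 * B * H ^ (2 * k) : ℕ) := by
  unfold ev
  refine (Finset.abs_sum_le_sum_abs _ _).trans ?_
  have h1 : ∀ ij ∈ (univ : Finset (Fin k × Fin k)),
      |((c ij : ℤ) * (x ^ (ij.1 : ℕ) * y ^ (ij.2 : ℕ) * m ^ (2 * k - ij.1 - ij.2)))| ≤
        ((B * H ^ (2 * k) : ℕ) : ℤ) := by
    rintro ⟨i, j⟩ _
    have hi := i.2
    have hj := j.2
    rw [abs_mul, abs_mul, abs_mul, abs_pow, abs_pow, abs_pow]
    push_cast
    have h : 2 * k = (i : ℕ) + (j : ℕ) + (2 * k - i - j) := by omega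
    have hH0 : (0 : ℤ) ≤ H := by positivity
    calc |c (i, j)| * (|x| ^ (i : ℕ) * |y| ^ (j : ℕ) * |m| ^ (2 * k - i - j))
        ≤ B * ((H : ℤ) ^ (i : ℕ) * (H : ℤ) ^ (j : ℕ) * (H : ℤ) ^ (2 * k - i - j)) := by
          refine mul_le_mul (hB _) ?_ (by positivity) (by positivity)
          refine mul_le_mul ?_ (pow_le_pow_left₀ (abs_nonneg _) hm _) (by positivity)
            (by positivity)
          exact mul_le_mul (pow_le_pow_left₀ (abs_nonneg _) hx _)
            (pow_le_pow_left₀ (abs_nonneg _) hy _) (by positivity) (by positivity)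
      _ = B * (H : ℤ) ^ (2 * k) := by
          rw [← pow_add, ← pow_add, ← h]
  refine (Finset.sum_le_sum h1).trans ?_
  rw [Finset.sum_const, Finset.card_univ, Fintype.card_prod, Fintype.card_fin, nsmul_eq_mul]
  push_cast
  apply le_of_eq
  ring

/-- **box principle**: a nonzero coefficient family with small entries whose form vanishes
modulo every `p ∈ P` on the residue set `R p`. -/
theorem box (k B : ℕ) (P : Finset ℕ) (hP : ∀ p ∈ P, p.Prime)
    (R : ∀ p : ℕ, Finset (ZMod p × ZMod p × ZMod p)) (hR : ∀ p ∈ P, (R p).card ≤ 6 * p)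
    (hB : ∏ p ∈ P, p ^ (6 * p) < (B + 1) ^ (k ^ 2)) :
    ∃ c : Fin k × Fin k → ℤ, c ≠ 0 ∧ (∀ ij, |c ij| ≤ B) ∧ ∀ p ∈ P, ∀ r ∈ R p, ev k c r = 0 := by
  classical
  haveI hne : ∀ p : P, NeZero p.1 := fun p => ⟨(hP p.1 p.2).ne_zero⟩
  let f : (Fin k × Fin k → Fin (B + 1)) → (∀ p : P, (R p.1 → ZMod p.1)) := fun d p r =>
    ev k (fun ij => ((d ij : ℕ) : ℤ)) r.1
  have hcard : Fintype.card (∀ p : P, (R p.1 → ZMod p.1)) <
      Fintype.card (Fin k × Fin k → Fin (B + 1)) := by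
    rw [Fintype.card_pi, Fintype.card_fun, Fintype.card_fin, Fintype.card_prod, Fintype.card_fin]
    have h1 : ∀ p : P, Fintype.card (R p.1 → ZMod p.1) ≤ p.1 ^ (6 * p.1) := by
      intro p
      rw [Fintype.card_fun, ZMod.card, Fintype.card_coe]
      exact Nat.pow_le_pow_right (hP p.1 p.2).pos (hR p.1 p.2)
    calc ∏ p : P, Fintype.card (R p.1 → ZMod p.1) ≤ ∏ p : P, p.1 ^ (6 * p.1) :=
          Finset.prod_le_prod (fun _ _ => Nat.zero_le _) (fun p _ => h1 p)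
      _ = ∏ p ∈ P, p ^ (6 * p) := Finset.prod_coe_sort P (fun p => p ^ (6 * p))
      _ < (B + 1) ^ (k ^ 2) := hB
      _ = (B + 1) ^ (k * k) := by rw [sq]
  obtain ⟨d, d', hdd, hf⟩ := Fintype.exists_ne_map_eq_of_card_lt f hcard
  refine ⟨(fun ij => ((d ij : ℕ) : ℤ)) - (fun ij => ((d' ij : ℕ) : ℤ)), ?_, ?_, ?_⟩
  · intro h
    apply hdd
    funext ij
    have := congrFun h ij
    simp only [Pi.sub_apply, Pi.zero_apply] at this
    apply Fin.ext
    omega
  · intro ij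
    have h1 := (d ij).2
    have h2 := (d' ij).2
    simp only [Pi.sub_apply]
    rw [abs_le]
    constructor <;> omega
  · intro p hp r hr
    rw [ev_sub, sub_eq_zero]
    exact congrFun (congrFun hf ⟨p, hp⟩) ⟨r, hr⟩

end Pool.Agent.H19.RD
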