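import Mathlib

/-!
# Cliques of the Paley type graph of a binary quadratic form over a prime field

If all differences of elements of `T ⊆ F_p × F_p` have a square value under `x ^ 2 + D y ^ 2`
(`D` not zero), then `T` has at most `4 p` elements.
-/

namespace Pool.Agent.H19.RD

open Finset

variable {p : ℕ} [Fact p.Prime]

/-- autocorrelation of the quadratic character -/
lemma corr (hp2 : p ≠ 2) (d : ZMod p) :
    ∑ x : ZMod p, quadraticChar (ZMod p) x * quadraticChar (ZMod p) (x + d) =
      if d = 0 then (p : ℤ) - 1 else -1 := by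
  classical
  have hchar : ringChar (ZMod p) ≠ 2 := by rwa [ZMod.ringChar_zmod_n]
  have hsum : ∑ x : ZMod p, quadraticChar (ZMod p) x = 0 := quadraticChar_sum_zero hchar
  split_ifs with h
  · subst h
    have h1 : ∀ x : ZMod p, quadraticChar (ZMod p) x * quadraticChar (ZMod p) (x + 0) =
        if x = 0 then 0 else 1 := by
      intro x
      split_ifs with hx
      · subst hx; simp
      · have := quadraticChar_sq_one (F := ZMod p) hx
        rw [add_zero, ← sq, this]
    rw [Finset.sum_congr rfl (fun x _ => h1 x)]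
    have : ∑ x : ZMod p, (if x = 0 then (0 : ℤ) else 1) = ∑ x : ZMod p, (1 - if x = 0 then (1 : ℤ) else 0) := by
      refine Finset.sum_congr rfl fun x _ => ?_
      split_ifs <;> simp
    rw [this, Finset.sum_sub_distrib]
    simp [ZMod.card]
  · -- remove x = 0
    have h0 : ∑ x : ZMod p, quadraticChar (ZMod p) x * quadraticChar (ZMod p) (x + d) =
        ∑ x ∈ univ.erase (0 : ZMod p), quadraticChar (ZMod p) (1 + d / x) := by
      rw [← Finset.add_sum_erase _ _ (mem_univ (0 : ZMod p))]
      have : quadraticChar (ZMod p) (0 : ZMod p) = 0 := by simp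
      rw [this, zero_mul, zero_add]
      refine Finset.sum_congr rfl fun x hx => ?_
      have hx0 : x ≠ 0 := (Finset.mem_erase.1 hx).1
      have h2 : x + d = x * (1 + d / x) := by field_simp
      rw [h2, map_mul, ← mul_assoc, ← sq, quadraticChar_sq_one hx0, one_mul]
    have h1 : ∑ x ∈ univ.erase (0 : ZMod p), quadraticChar (ZMod p) (1 + d / x) =
        ∑ y ∈ univ.erase (1 : ZMod p), quadraticChar (ZMod p) y := by
      refine Finset.sum_nbij' (fun x => 1 + d / x) (fun y => d / (y - 1)) ?_ ?_ ?_ ?_ ?_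
      · intro x hx
        have hx0 : x ≠ 0 := (Finset.mem_erase.1 hx).1
        simp [h, hx0]
      · intro y hy
        have hy1 : y ≠ 1 := (Finset.mem_erase.1 hy).1
        simp [h, sub_eq_zero, hy1]
      · intro x hx
        have hx0 : x ≠ 0 := (Finset.mem_erase.1 hx).1
        simp only [add_sub_cancel_left]
        field_simp
      · intro y hy
        have hy1 : y - 1 ≠ 0 := sub_ne_zero.2 (Finset.mem_erase.1 hy).1
        field_simp
        ring
      · intro x hx
        rfl
    rw [h0, h1]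
    have := Finset.add_sum_erase (univ : Finset (ZMod p)) (fun y => quadraticChar (ZMod p) y)
      (mem_univ (1 : ZMod p))
    simp only [map_one] at this
    rw [hsum] at this
    linarith

/-- the split case -/
lemma clique_split (hp2 : p ≠ 2) (T : Finset (ZMod p × ZMod p))
    (hT : ∀ s ∈ T, ∀ t ∈ T, IsSquare ((s.1 - t.1) * (s.2 - t.2))) : T.card ≤ 4 * p := by
  classical
  set χ := quadraticChar (ZMod p) with hχ
  have hp : p.Prime := Fact.out
  have hp3 : 3 ≤ p := by
    have := hp.two_le
    omega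
  by_contra hcon
  push Not at hcon
  -- second moment
  have hmom : ∑ z : ZMod p × ZMod p, (∑ t ∈ T, χ (z.1 - t.1) * χ (z.2 - t.2)) ^ 2 =
      ∑ t ∈ T, ∑ t' ∈ T, (∑ x : ZMod p, χ (x - t.1) * χ (x - t'.1)) *
        (∑ y : ZMod p, χ (y - t.2) * χ (y - t'.2)) := by
    have h1 : ∀ z : ZMod p × ZMod p, (∑ t ∈ T, χ (z.1 - t.1) * χ (z.2 - t.2)) ^ 2 =
        ∑ t ∈ T, ∑ t' ∈ T, (χ (z.1 - t.1) * χ (z.1 - t'.1)) * (χ (z.2 - t.2) * χ (z.2 - t'.2)) := by
      intro z
      rw [sq, Finset.sum_mul_sum]
      refine Finset.sum_congr rfl fun t _ => Finset.sum_congr rfl fun t' _ => ?_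
      ring
    rw [Finset.sum_congr rfl (fun z _ => h1 z)]
    rw [Finset.sum_comm]
    refine Finset.sum_congr rfl fun t _ => ?_
    rw [Finset.sum_comm]
    refine Finset.sum_congr rfl fun t' _ => ?_
    rw [Fintype.sum_prod_type, Finset.sum_mul_sum]
  have hcorr : ∀ a b : ZMod p, ∑ x : ZMod p, χ (x - a) * χ (x - b) =
      if a = b then (p : ℤ) - 1 else -1 := by
    intro a b
    have h1 : ∑ x : ZMod p, χ (x - a) * χ (x - b) = ∑ x : ZMod p, χ x * χ (x + (a - b)) := by
      refine Finset.sum_nbij' (fun x => x - a) (fun x => x + a) ?_ ?_ ?_ ?_ ?_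
      · simp
      · simp
      · simp
      · simp
      · intro x _
        congr 2
        ring
    rw [h1, corr hp2]
    simp [sub_eq_zero]
  have hup : ∑ z : ZMod p × ZMod p, (∑ t ∈ T, χ (z.1 - t.1) * χ (z.2 - t.2)) ^ 2 ≤
      (T.card : ℤ) * (p : ℤ) ^ 2 + (T.card : ℤ) ^ 2 := by
    rw [hmom]
    have h2 : ∀ t ∈ T, ∀ t' ∈ T, (∑ x : ZMod p, χ (x - t.1) * χ (x - t'.1)) *
        (∑ y : ZMod p, χ (y - t.2) * χ (y - t'.2)) ≤ (if t = t' then (p : ℤ) ^ 2 else 0) + 1 := by
      intro t _ t' _
      rw [hcorr, hcorr]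
      have hp' : (3 : ℤ) ≤ p := by exact_mod_cast hp3
      by_cases h1 : t.1 = t'.1 <;> by_cases h2 : t.2 = t'.2
      · have : t = t' := Prod.ext h1 h2
        simp only [h1, h2, if_true, this]
        nlinarith
      · simp only [h1, h2, if_true, if_false]
        split_ifs <;> nlinarith
      · simp only [h1, h2, if_true, if_false]
        split_ifs <;> nlinarith
      · simp only [h1, h2, if_false]
        split_ifs <;> nlinarith
    calc _ ≤ ∑ t ∈ T, ∑ t' ∈ T, ((if t = t' then (p : ℤ) ^ 2 else 0) + 1) :=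
          Finset.sum_le_sum fun t ht => Finset.sum_le_sum fun t' ht' => h2 t ht t' ht'
      _ = _ := by
          simp only [Finset.sum_add_distrib, Finset.sum_const, nsmul_eq_mul, mul_one]
          have : ∀ t ∈ T, ∑ t' ∈ T, (if t = t' then (p : ℤ) ^ 2 else 0) = (p : ℤ) ^ 2 := by
            intro t ht
            rw [Finset.sum_ite_eq]
            simp [ht]
          rw [Finset.sum_congr rfl this]
          simp only [Finset.sum_const, nsmul_eq_mul]
          ring
  -- lower bound
  have hlow : ∀ z ∈ T, (T.card : ℤ) - 2 * p ≤ ∑ t ∈ T, χ (z.1 - t.1) * χ (z.2 - t.2) := by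
    intro z hz
    have h1 : ∀ t ∈ T, (1 : ℤ) - (if t.1 = z.1 ∨ t.2 = z.2 then 1 else 0) ≤
        χ (z.1 - t.1) * χ (z.2 - t.2) := by
      intro t ht
      rw [← map_mul]
      have hsq := hT z hz t ht
      by_cases h0 : (z.1 - t.1) * (z.2 - t.2) = 0
      · rw [h0]
        have h3 : t.1 = z.1 ∨ t.2 = z.2 := by
          rcases mul_eq_zero.1 h0 with h | h
          · left; exact (sub_eq_zero.1 h).symm
          · right; exact (sub_eq_zero.1 h).symm
        have h30 : χ 0 = 0 := by rw [hχ]; exact quadraticChar_zero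
        rw [if_pos h3, h30]
        norm_num
      · have h4 : χ ((z.1 - t.1) * (z.2 - t.2)) = 1 :=
          (quadraticChar_one_iff_isSquare h0).2 hsq
        rw [h4]
        split_ifs <;> norm_num
    have h2 := Finset.sum_le_sum h1
    refine le_trans ?_ h2
    rw [Finset.sum_sub_distrib]
    simp only [Finset.sum_const, nsmul_eq_mul, mul_one]
    have h5 : ∑ t ∈ T, (if t.1 = z.1 ∨ t.2 = z.2 then (1 : ℤ) else 0) =
        ((T.filter (fun t => t.1 = z.1 ∨ t.2 = z.2)).card : ℤ) := by
      rw [Finset.sum_boole]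
    rw [h5]
    have h6 : (T.filter (fun t => t.1 = z.1 ∨ t.2 = z.2)).card ≤ 2 * p := by
      have h7 : (T.filter (fun t => t.1 = z.1 ∨ t.2 = z.2)) ⊆
          (univ.image (fun y : ZMod p => (z.1, y))) ∪ (univ.image (fun x : ZMod p => (x, z.2))) := by
        intro t ht
        rw [Finset.mem_filter] at ht
        rw [Finset.mem_union, Finset.mem_image, Finset.mem_image]
        rcases ht.2 with h | h
        · left; exact ⟨t.2, mem_univ _, by rw [← h]⟩
        · right; exact ⟨t.1, mem_univ _, by rw [← h]⟩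
      refine (Finset.card_le_card h7).trans ((Finset.card_union_le _ _).trans ?_)
      have h8 : (univ.image (fun y : ZMod p => (z.1, y))).card ≤ p := by
        refine Finset.card_image_le.trans ?_
        simp [ZMod.card]
      have h9 : (univ.image (fun x : ZMod p => (x, z.2))).card ≤ p := by
        refine Finset.card_image_le.trans ?_
        simp [ZMod.card]
      omega
    have h10 : ((T.filter (fun t => t.1 = z.1 ∨ t.2 = z.2)).card : ℤ) ≤ 2 * p := by
      exact_mod_cast h6
    linarith
  have hlow2 : (T.card : ℤ) * ((T.card : ℤ) - 2 * p) ^ 2 ≤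
      ∑ z : ZMod p × ZMod p, (∑ t ∈ T, χ (z.1 - t.1) * χ (z.2 - t.2)) ^ 2 := by
    have hpos : (0 : ℤ) ≤ (T.card : ℤ) - 2 * p := by
      have : (4 : ℤ) * p < T.card := by exact_mod_cast hcon
      have hp' : (0 : ℤ) ≤ p := by positivity
      linarith
    calc (T.card : ℤ) * ((T.card : ℤ) - 2 * p) ^ 2 = ∑ z ∈ T, ((T.card : ℤ) - 2 * p) ^ 2 := by
          simp
      _ ≤ ∑ z ∈ T, (∑ t ∈ T, χ (z.1 - t.1) * χ (z.2 - t.2)) ^ 2 := by
          refine Finset.sum_le_sum fun z hz => ?_
          exact pow_le_pow_left₀ hpos (hlow z hz) 2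
      _ ≤ _ := by
          refine Finset.sum_le_sum_of_subset_of_nonneg (Finset.subset_univ _) ?_
          intro z _ _
          positivity
  have hN : (4 : ℤ) * p < T.card := by exact_mod_cast hcon
  have hp' : (3 : ℤ) ≤ p := by exact_mod_cast hp3
  have hfin := hlow2.trans hup
  set N : ℤ := (T.card : ℤ) with hNdef
  -- N (N-2p)^2 ≤ N p^2 + N^2, N > 4p ≥ 12
  have hNpos : 0 < N := by linarith
  have h1 : (N - 2 * p) ^ 2 ≤ p ^ 2 + N := by
    have : N * (N - 2 * p) ^ 2 ≤ N * (p ^ 2 + N) := by linarith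
    exact le_of_mul_le_mul_left this hNpos
  nlinarith

/-- the anisotropic case -/
lemma clique_inert (D : ZMod p) (hD : ¬ IsSquare (-D)) (hp2 : p ≠ 2)
    (T : Finset (ZMod p × ZMod p))
    (hT : ∀ s ∈ T, ∀ t ∈ T, IsSquare ((s.1 - t.1) ^ 2 + D * (s.2 - t.2) ^ 2)) :
    T.card ≤ p := by
  classical
  have hp : p.Prime := Fact.out
  have hD0 : D ≠ 0 := by
    rintro rfl
    exact hD (by simp)
  -- anisotropy
  have han : ∀ x y : ZMod p, x ^ 2 + D * y ^ 2 = 0 → x = 0 ∧ y = 0 := by
    intro x y h
    by_cases hy : y = 0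
    · subst hy
      refine ⟨?_, rfl⟩
      have : x ^ 2 = 0 := by simpa using h
      exact pow_eq_zero_iff (two_ne_zero) |>.1 this
    · exfalso
      apply hD
      refine ⟨x / y, ?_⟩
      have : -D * y ^ 2 = x ^ 2 := by linear_combination -h
      field_simp
      linear_combination this
  -- a nonsquare value
  have hchar : ringChar (ZMod p) ≠ 2 := by rwa [ZMod.ringChar_zmod_n]
  obtain ⟨ν, hν⟩ := FiniteField.exists_nonsquare hchar
  obtain ⟨g1, g2, hg⟩ : ∃ g1 g2 : ZMod p, g1 ^ 2 + D * g2 ^ 2 = ν := by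
    have hcard : Fintype.card (ZMod p) % 2 = 1 := by
      rw [ZMod.card]
      rcases hp.eq_two_or_odd with h | h
      · exact absurd h hp2
      · exact h
    obtain ⟨a, b, hab⟩ := FiniteField.exists_root_sum_quadratic (R := ZMod p)
      (f := Polynomial.X ^ 2) (g := Polynomial.C D * Polynomial.X ^ 2 - Polynomial.C ν)
      (by simp) (by
        rw [Polynomial.degree_sub_C]
        · exact Polynomial.degree_C_mul_X_pow 2 hD0
        · rw [Polynomial.degree_C_mul_X_pow 2 hD0]; norm_num) hcard
    refine ⟨a, b, ?_⟩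
    simp at hab
    linear_combination hab
  let F : (ZMod p × ZMod p) × (ZMod p × ZMod p) → ZMod p × ZMod p := fun st =>
    (st.1.1 + (g1 * st.2.1 - D * g2 * st.2.2), st.1.2 + (g1 * st.2.2 + g2 * st.2.1))
  have hinj : Set.InjOn F (T ×ˢ T : Finset ((ZMod p × ZMod p) × (ZMod p × ZMod p))) := by
    rintro ⟨s, t⟩ hst ⟨s', t'⟩ hst' heq
    rw [Finset.mem_coe, Finset.mem_product] at hst hst'
    simp only [F, Prod.mk.injEq] at heq
    obtain ⟨e1, e2⟩ := heq
    have hs : s.1 - s'.1 = g1 * (t'.1 - t.1) - D * g2 * (t'.2 - t.2) := by linear_combination e1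
    have hs2 : s.2 - s'.2 = g1 * (t'.2 - t.2) + g2 * (t'.1 - t.1) := by linear_combination e2
    have hQ : (s.1 - s'.1) ^ 2 + D * (s.2 - s'.2) ^ 2 =
        ν * ((t'.1 - t.1) ^ 2 + D * (t'.2 - t.2) ^ 2) := by
      rw [hs, hs2, ← hg]; ring
    have hsqs := hT s hst.1 s' hst'.1
    have hsqt := hT t' hst'.2 t hst.2
    have htt : t = t' := by
      by_contra hne
      have hne0 : (t'.1 - t.1) ^ 2 + D * (t'.2 - t.2) ^ 2 ≠ 0 := by
        intro h0
        obtain ⟨h1, h2⟩ := han _ _ h0
        exact hne (Prod.ext (sub_eq_zero.1 h1).symm (sub_eq_zero.1 h2).symm)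
      apply hν
      rw [hQ] at hsqs
      have := hsqs.div hsqt
      rwa [mul_div_cancel_right₀ _ hne0] at this
    subst htt
    have h1 : s.1 = s'.1 := by
      have : s.1 - s'.1 = 0 := by rw [hs]; ring
      exact sub_eq_zero.1 this
    have h2 : s.2 = s'.2 := by
      have : s.2 - s'.2 = 0 := by rw [hs2]; ring
      exact sub_eq_zero.1 this
    rw [Prod.ext h1 h2]
  have hc := Finset.card_le_card_of_injOn (t := (univ : Finset (ZMod p × ZMod p))) F
    (fun _ _ => Finset.mem_coe.2 (mem_univ _)) hinj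
  rw [Finset.card_product, Finset.card_univ, Fintype.card_prod, ZMod.card] at hc
  by_contra hcon
  push Not at hcon
  nlinarith

/-- **clique bound**: at most `4 p` elements -/
theorem clique (hp2 : p ≠ 2) (D : ZMod p) (hD : D ≠ 0) (T : Finset (ZMod p × ZMod p))
    (hT : ∀ s ∈ T, ∀ t ∈ T, IsSquare ((s.1 - t.1) ^ 2 + D * (s.2 - t.2) ^ 2)) :
    T.card ≤ 4 * p := by
  classical
  by_cases h : IsSquare (-D)
  · obtain ⟨w, hw⟩ := h
    have hw0 : w ≠ 0 := by
      rintro rfl
      apply hD
      have : -D = 0 := by rw [hw]; ring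
      simpa using this
    have h2 : (2 : ZMod p) ≠ 0 := by
      have hchar : ringChar (ZMod p) ≠ 2 := by rwa [ZMod.ringChar_zmod_n]
      exact Ring.two_ne_zero hchar
    let e : ZMod p × ZMod p → ZMod p × ZMod p := fun s => (s.1 + w * s.2, s.1 - w * s.2)
    have he : Function.Injective e := by
      intro s t hst
      simp only [e, Prod.mk.injEq] at hst
      obtain ⟨h3, h4⟩ := hst
      have h5 : s.1 = t.1 := by
        have : (2 : ZMod p) * s.1 = 2 * t.1 := by linear_combination h3 + h4
        exact mul_left_cancel₀ h2 this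
      have h6 : s.2 = t.2 := by
        have : (w : ZMod p) * s.2 = w * t.2 := by linear_combination h3 - h5
        exact mul_left_cancel₀ hw0 this
      exact Prod.ext h5 h6
    have h7 := clique_split hp2 (T.image e) (by
      intro s hs t ht
      obtain ⟨s', hs', rfl⟩ := Finset.mem_image.1 hs
      obtain ⟨t', ht', rfl⟩ := Finset.mem_image.1 ht
      have h8 := hT s' hs' t' ht'
      have h9 : ((e s').1 - (e t').1) * ((e s').2 - (e t').2) =
          (s'.1 - t'.1) ^ 2 + D * (s'.2 - t'.2) ^ 2 := by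
        simp only [e]
        linear_combination (s'.2 - t'.2) ^ 2 * hw
      rw [h9]
      exact h8)
    rwa [Finset.card_image_of_injective _ he] at h7
  · have := clique_inert D h hp2 T hT
    have hp : p.Prime := Fact.out
    omega

end Pool.Agent.H19.RD
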