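import Mathlib

/-!
# Integral coordinates for points of a rational distance set
-/

namespace Pool.Agent.H19.RD

/-- `x` is a fraction `p / q` with `0 ≤ p ≤ H` and `1 ≤ q ≤ H` -/
def HeightLE (H : ℕ) (x : ℝ) : Prop := ∃ p q : ℕ, p ≤ H ∧ 1 ≤ q ∧ q ≤ H ∧ x = p / q

lemma int_of_sq (r : ℚ) (n : ℤ) (h : r ^ 2 = n) : ∃ m : ℤ, r = m := by
  have h1 : (r ^ 2).den = 1 := by rw [h]; simp
  rw [Rat.den_pow] at h1
  have h2 : r.den = 1 := by
    rcases Nat.pow_eq_one.1 h1 with h | h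
    · exact h
    · omega
  exact ⟨r.num, (Rat.den_eq_one_iff r).1 h2 |>.symm⟩

/-- first coordinates of one point -/
lemma coord1 (K : ℕ) (ζ : ℂ) (A1 B1 A2 B2 : ℕ) (hA1 : A1 ≤ K) (hB1 : 1 ≤ B1) (hB1K : B1 ≤ K)
    (_hA2 : A2 ≤ K) (hB2 : 1 ≤ B2) (hB2K : B2 ≤ K)
    (h1 : ‖ζ‖ = A1 / B1) (h2 : ‖ζ - 1‖ = A2 / B2) :
    ∃ M N : ℕ, ∃ A : ℤ, 1 ≤ M ∧ M ≤ 2 * K ^ 4 ∧ N ≤ 2 * K ^ 4 ∧ |A| ≤ N ∧
      (M : ℝ) * ζ.re = A ∧ ((M : ℝ) * ζ.im) ^ 2 = (N : ℝ) ^ 2 - (A : ℝ) ^ 2 := by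
  have hB1' : (B1 : ℝ) ≠ 0 := by positivity
  have hB2' : (B2 : ℝ) ≠ 0 := by positivity
  have e1 : ζ.re ^ 2 + ζ.im ^ 2 = (A1 / B1 : ℝ) ^ 2 := by
    rw [← h1, Complex.sq_norm, Complex.normSq_apply]; ring
  have e2 : (ζ.re - 1) ^ 2 + ζ.im ^ 2 = (A2 / B2 : ℝ) ^ 2 := by
    rw [← h2, Complex.sq_norm, Complex.normSq_apply]; simp; ring
  have hre : ζ.re = ((A1 / B1 : ℝ) ^ 2 - (A2 / B2 : ℝ) ^ 2 + 1) / 2 := by linarith
  refine ⟨2 * B1 ^ 2 * B2 ^ 2, 2 * A1 * B1 * B2 ^ 2,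
    (A1 : ℤ) ^ 2 * B2 ^ 2 - (A2 : ℤ) ^ 2 * B1 ^ 2 + (B1 : ℤ) ^ 2 * B2 ^ 2, ?_, ?_, ?_, ?_, ?_, ?_⟩
  · have : 0 < 2 * B1 ^ 2 * B2 ^ 2 := by positivity
    omega
  · calc 2 * B1 ^ 2 * B2 ^ 2 ≤ 2 * K ^ 2 * K ^ 2 := by gcongr
      _ = 2 * K ^ 4 := by ring
  · calc 2 * A1 * B1 * B2 ^ 2 ≤ 2 * K * K * K ^ 2 := by gcongr
      _ = 2 * K ^ 4 := by ring
  · have hM : ((2 * B1 ^ 2 * B2 ^ 2 : ℕ) : ℝ) * ζ.re =
        ((A1 : ℤ) ^ 2 * B2 ^ 2 - (A2 : ℤ) ^ 2 * B1 ^ 2 + (B1 : ℤ) ^ 2 * B2 ^ 2 : ℤ) := by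
      rw [hre]; push_cast; field_simp
    have hN : ((2 * B1 ^ 2 * B2 ^ 2 : ℕ) : ℝ) * ‖ζ‖ = ((2 * A1 * B1 * B2 ^ 2 : ℕ) : ℝ) := by
      rw [h1]; push_cast; field_simp
    have h3 : |((2 * B1 ^ 2 * B2 ^ 2 : ℕ) : ℝ) * ζ.re| ≤ ((2 * B1 ^ 2 * B2 ^ 2 : ℕ) : ℝ) * ‖ζ‖ := by
      rw [abs_mul, abs_of_nonneg (by positivity)]
      exact mul_le_mul_of_nonneg_left (Complex.abs_re_le_norm ζ) (by positivity)
    rw [hM, hN] at h3
    exact_mod_cast h3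
  · rw [hre]; push_cast; field_simp
  · have hM : ((2 * B1 ^ 2 * B2 ^ 2 : ℕ) : ℝ) * ζ.re =
        ((A1 : ℤ) ^ 2 * B2 ^ 2 - (A2 : ℤ) ^ 2 * B1 ^ 2 + (B1 : ℤ) ^ 2 * B2 ^ 2 : ℤ) := by
      rw [hre]; push_cast; field_simp
    rw [← hM]
    have h4 : ζ.im ^ 2 = (A1 / B1 : ℝ) ^ 2 - ζ.re ^ 2 := by linarith
    rw [mul_pow, h4]
    push_cast
    field_simp

lemma height_div (H : ℕ) (x y : ℝ) (hx : HeightLE H x) (hy : HeightLE H y) (hy0 : y ≠ 0) :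
    ∃ A B : ℕ, A ≤ H ^ 2 ∧ 1 ≤ B ∧ B ≤ H ^ 2 ∧ x / y = A / B := by
  obtain ⟨p, q, hp, hq1, hq, rfl⟩ := hx
  obtain ⟨p', q', hp', hq1', hq', rfl⟩ := hy
  have hp0 : p' ≠ 0 := by
    rintro rfl
    simp at hy0
  refine ⟨p * q', q * p', ?_, ?_, ?_, ?_⟩
  · rw [sq]; exact Nat.mul_le_mul hp hq'
  · exact Nat.one_le_iff_ne_zero.2 (Nat.mul_ne_zero (by omega) hp0)
  · rw [sq]; exact Nat.mul_le_mul hq hp'
  · have h1 : (q : ℝ) ≠ 0 := by positivity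
    have h2 : (q' : ℝ) ≠ 0 := by positivity
    have h3 : (p' : ℝ) ≠ 0 := by exact_mod_cast hp0
    push_cast
    field_simp

/-- normalised point -/
noncomputable def nrm (a b z : ℂ) : ℂ := (z - a) / (b - a)

lemma nrm_dist (a b z w : ℂ) (_hab : a ≠ b) : ‖nrm a b z - nrm a b w‖ = dist z w / dist a b := by
  unfold nrm
  rw [← sub_div, norm_div, Complex.dist_eq, Complex.dist_eq, norm_sub_rev a b]
  congr 2
  ring

lemma nrm_a (a b : ℂ) : nrm a b a = 0 := by simp [nrm]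

lemma nrm_b (a b : ℂ) (hab : a ≠ b) : nrm a b b = 1 := by
  unfold nrm
  exact div_self (sub_ne_zero.2 hab.symm)

/-- the points of `S` of height at most `H` with respect to `a, b` -/
def Low (S : Set ℂ) (a b : ℂ) (H : ℕ) : Set ℂ :=
  {z | z ∈ S ∧ HeightLE H (dist z a) ∧ HeightLE H (dist z b)}

theorem coords (H : ℕ) (hH : 2 ≤ H) (S : Set ℂ) (hS : ∀ z ∈ S, ∀ w ∈ S, ∃ q : ℚ, dist z w = q)
    (a b : ℂ) (ha : a ∈ S) (hb : b ∈ S) (hab : a ≠ b) (h0 : HeightLE H (dist a b)) :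
    ∃ D : ℕ, 1 ≤ D ∧ D ≤ H ^ 27 ∧ ∀ z ∈ Low S a b H, ∃ A B M : ℤ, 1 ≤ M ∧ M ≤ (H ^ 27 : ℕ) ∧
      |A| ≤ (H ^ 27 : ℕ) ∧ |B| ≤ (H ^ 27 : ℕ) ∧ (nrm a b z).re = A / M ∧
      (nrm a b z).im = B * Real.sqrt D / M := by
  have hd : dist a b ≠ 0 := dist_ne_zero.2 hab
  have hH8 : 8 ≤ H ^ 3 := by
    calc 8 = 2 ^ 3 := by norm_num
      _ ≤ H ^ 3 := Nat.pow_le_pow_left hH 3
  -- coordinates of each point
  have hc : ∀ z ∈ Low S a b H, ∃ M N : ℕ, ∃ A : ℤ, 1 ≤ M ∧ M ≤ 2 * (H ^ 2) ^ 4 ∧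
      N ≤ 2 * (H ^ 2) ^ 4 ∧ |A| ≤ N ∧ (M : ℝ) * (nrm a b z).re = A ∧
      ((M : ℝ) * (nrm a b z).im) ^ 2 = (N : ℝ) ^ 2 - (A : ℝ) ^ 2 := by
    rintro z ⟨hz, h1, h2⟩
    obtain ⟨A1, B1, hA1, hB1, hB1K, e1⟩ := height_div H _ _ h1 h0 hd
    obtain ⟨A2, B2, hA2, hB2, hB2K, e2⟩ := height_div H _ _ h2 h0 hd
    refine coord1 (H ^ 2) (nrm a b z) A1 B1 A2 B2 hA1 hB1 hB1K hA2 hB2 hB2K ?_ ?_
    · have := nrm_dist a b z a hab
      rw [nrm_a, sub_zero] at this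
      rw [this, e1]
    · have := nrm_dist a b z b hab
      rw [nrm_b a b hab] at this
      rw [this, e2]
  have hpow : 2 * (H ^ 2) ^ 4 ≤ H ^ 27 := by
    calc 2 * (H ^ 2) ^ 4 ≤ H ^ 3 * H ^ 8 := by
          rw [← pow_mul]; exact Nat.mul_le_mul_right _ (by omega)
      _ = H ^ 11 := by ring
      _ ≤ H ^ 27 := Nat.pow_le_pow_right (by omega) (by norm_num)
  by_cases hreal : ∀ z ∈ Low S a b H, (nrm a b z).im = 0
  · refine ⟨1, le_rfl, Nat.one_le_pow _ _ (by omega), ?_⟩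
    intro z hz
    obtain ⟨M, N, A, hM1, hM, hN, hA, hre, him⟩ := hc z hz
    refine ⟨A, 0, M, by exact_mod_cast hM1, by exact_mod_cast hM.trans hpow, ?_, ?_, ?_, ?_⟩
    · exact hA.trans (by exact_mod_cast hN.trans hpow)
    · simp
    · have : (M : ℝ) ≠ 0 := by positivity
      push_cast
      rw [eq_div_iff this, ← hre]; ring
    · rw [hreal z hz]; simp
  · push Not at hreal
    obtain ⟨z0, hz0, him0⟩ := hreal
    obtain ⟨M0, N0, A0, hM01, hM0, hN0, hA0, hre0, hi0⟩ := hc z0 hz0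
    have hM0' : (M0 : ℝ) ≠ 0 := by positivity
    -- D
    obtain ⟨D, hD⟩ : ∃ D : ℕ, (D : ℤ) = (N0 : ℤ) ^ 2 - A0 ^ 2 := by
      have : 0 ≤ (N0 : ℤ) ^ 2 - A0 ^ 2 := by
        have h3 : A0 ^ 2 ≤ (N0 : ℤ) ^ 2 := by
          rw [← sq_abs A0]
          exact pow_le_pow_left₀ (abs_nonneg _) hA0 2
        linarith
      exact ⟨((N0 : ℤ) ^ 2 - A0 ^ 2).toNat, Int.toNat_of_nonneg this⟩
    have hDr : (D : ℝ) = (N0 : ℝ) ^ 2 - (A0 : ℝ) ^ 2 := by exact_mod_cast hD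
    have hDsq : ((M0 : ℝ) * (nrm a b z0).im) ^ 2 = D := by rw [hi0, hDr]
    have hDpos : 0 < D := by
      have : (0 : ℝ) < D := by
        rw [← hDsq]
        positivity
      exact_mod_cast this
    have hDle : D ≤ N0 ^ 2 := by
      have : (D : ℤ) ≤ (N0 : ℤ) ^ 2 := by
        rw [hD]
        have := sq_nonneg A0
        linarith
      exact_mod_cast this
    have hN02 : N0 ^ 2 ≤ 4 * H ^ 16 := by
      calc N0 ^ 2 ≤ (2 * (H ^ 2) ^ 4) ^ 2 := Nat.pow_le_pow_left hN0 2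
        _ = 4 * H ^ 16 := by ring
    refine ⟨D, hDpos, ?_, ?_⟩
    · calc D ≤ 4 * H ^ 16 := hDle.trans hN02
        _ ≤ H ^ 3 * H ^ 16 := Nat.mul_le_mul_right _ (by omega)
        _ = H ^ 19 := by ring
        _ ≤ H ^ 27 := Nat.pow_le_pow_right (by omega) (by norm_num)
    intro z hz
    obtain ⟨M, N, A, hM1, hM, hN, hA, hre, him⟩ := hc z hz
    have hMr : (M : ℝ) ≠ 0 := by positivity
    have hDr0 : (D : ℝ) ≠ 0 := by positivity
    have hsD : Real.sqrt D ^ 2 = D := Real.sq_sqrt (by positivity)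
    have hsD0 : Real.sqrt D ≠ 0 := by
      intro h
      rw [h] at hsD
      apply hDr0
      rw [← hsD]; norm_num
    -- the product of the imaginary parts is rational
    obtain ⟨κ, hκ⟩ : ∃ κ : ℚ, (nrm a b z).im * (nrm a b z0).im = κ := by
      obtain ⟨q1, hq1⟩ := hS z hz.1 z0 hz0.1
      obtain ⟨q2, hq2⟩ := hS a ha b hb
      have h3 := nrm_dist a b z z0 hab
      have h4 : ((nrm a b z).re - (nrm a b z0).re) ^ 2 + ((nrm a b z).im - (nrm a b z0).im) ^ 2 =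
          (q1 / q2 : ℝ) ^ 2 := by
        rw [← hq1, ← hq2, ← h3, Complex.sq_norm, Complex.normSq_apply]
        simp
        ring
      have h5 : (nrm a b z).re = A / M := by field_simp; linarith
      have h6 : (nrm a b z0).re = A0 / M0 := by field_simp; linarith
      have h7 : (nrm a b z).im ^ 2 = ((N : ℝ) ^ 2 - A ^ 2) / M ^ 2 := by
        field_simp; linarith
      have h8 : (nrm a b z0).im ^ 2 = ((N0 : ℝ) ^ 2 - A0 ^ 2) / M0 ^ 2 := by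
        field_simp; linarith
      refine ⟨(((A / M - A0 / M0) ^ 2 + ((N : ℚ) ^ 2 - A ^ 2) / M ^ 2 +
        ((N0 : ℚ) ^ 2 - A0 ^ 2) / M0 ^ 2) - (q1 / q2) ^ 2) / 2, ?_⟩
      push_cast
      rw [← h7, ← h8, ← h4, h5, h6]
      ring
    -- `im z = ρ √D`
    obtain ⟨ρ, hρ⟩ : ∃ ρ : ℚ, (nrm a b z).im = ρ * Real.sqrt D := by
      have h9 : ((M0 : ℝ) * (nrm a b z0).im) = Real.sqrt D ∨
          ((M0 : ℝ) * (nrm a b z0).im) = - Real.sqrt D := by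
        apply sq_eq_sq_iff_eq_or_eq_neg.1
        rw [hDsq, hsD]
      rcases h9 with h9 | h9
      · refine ⟨κ * M0 / D, ?_⟩
        push_cast
        rw [← hκ]
        have : (nrm a b z).im * (nrm a b z0).im * M0 / D * Real.sqrt D =
            (nrm a b z).im * ((M0 * (nrm a b z0).im) * Real.sqrt D) / D := by ring
        rw [this, h9, ← sq, hsD]
        field_simp
      · refine ⟨-(κ * M0 / D), ?_⟩
        push_cast
        rw [← hκ]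
        have : -((nrm a b z).im * (nrm a b z0).im * M0 / D) * Real.sqrt D =
            -((nrm a b z).im * ((M0 * (nrm a b z0).im) * Real.sqrt D) / D) := by ring
        rw [this, h9]
        have : - Real.sqrt D * Real.sqrt D = - (D : ℝ) := by linear_combination -hsD
        rw [this]
        field_simp
    -- integrality
    have hsq : ((M : ℚ) * ρ * D) ^ 2 = (((N : ℤ) ^ 2 - A ^ 2) * D : ℤ) := by
      have h10 : ((M : ℝ) * ρ * D) ^ 2 = ((N : ℝ) ^ 2 - A ^ 2) * D := by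
        rw [← him, hρ]
        calc ((M : ℝ) * ρ * D) ^ 2 = (M * ρ) ^ 2 * D * D := by ring
          _ = (M * ρ) ^ 2 * Real.sqrt D ^ 2 * D := by rw [hsD]
          _ = _ := by ring
      have h11 : (((M : ℚ) * ρ * D) ^ 2 : ℚ) = (((N : ℚ) ^ 2 - A ^ 2) * D : ℚ) := by
        exact_mod_cast h10
      rw [h11]
      push_cast
      ring
    obtain ⟨B, hB⟩ := int_of_sq _ _ hsq
    have hBr : (M : ℝ) * ρ * D = B := by exact_mod_cast hB
    have hMD : M * D ≤ H ^ 27 := by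
      calc M * D ≤ (2 * (H ^ 2) ^ 4) * (4 * H ^ 16) := Nat.mul_le_mul hM (hDle.trans hN02)
        _ = 8 * H ^ 24 := by ring
        _ ≤ H ^ 3 * H ^ 24 := Nat.mul_le_mul_right _ hH8
        _ = H ^ 27 := by ring
    have hND : N * D ≤ H ^ 27 := by
      calc N * D ≤ (2 * (H ^ 2) ^ 4) * (4 * H ^ 16) := Nat.mul_le_mul hN (hDle.trans hN02)
        _ = 8 * H ^ 24 := by ring
        _ ≤ H ^ 3 * H ^ 24 := Nat.mul_le_mul_right _ hH8
        _ = H ^ 27 := by ring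
    refine ⟨A * D, B, M * D, ?_, ?_, ?_, ?_, ?_, ?_⟩
    · have : 0 < M * D := Nat.mul_pos (by omega) hDpos
      exact_mod_cast this
    · exact_mod_cast hMD
    · rw [abs_mul, Nat.abs_cast]
      calc |A| * (D : ℤ) ≤ N * D := mul_le_mul_of_nonneg_right hA (by positivity)
        _ ≤ _ := by exact_mod_cast hND
    · -- |B| ≤ N D
      have h12 : (B : ℤ) ^ 2 ≤ ((N * D : ℕ) : ℤ) ^ 2 := by
        have h13 : (B : ℤ) ^ 2 = ((N : ℤ) ^ 2 - A ^ 2) * D := by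
          have : ((B : ℤ) : ℚ) ^ 2 = (((N : ℤ) ^ 2 - A ^ 2) * D : ℤ) := by rw [← hB, hsq]
          exact_mod_cast this
        rw [h13]
        have h14 : (1 : ℤ) ≤ D := by exact_mod_cast hDpos
        have h15 := sq_nonneg (A : ℤ)
        push_cast
        calc ((N : ℤ) ^ 2 - A ^ 2) * D ≤ (N : ℤ) ^ 2 * D := by nlinarith
          _ ≤ (N : ℤ) ^ 2 * (D * D) := by
              apply mul_le_mul_of_nonneg_left _ (sq_nonneg _)
              nlinarith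
          _ = _ := by ring
      have h16 : |B| ≤ ((N * D : ℕ) : ℤ) := abs_le_of_sq_le_sq h12 (by positivity)
      exact h16.trans (by exact_mod_cast hND)
    · push_cast
      have : (nrm a b z).re = A / M := by field_simp; linarith
      rw [this]
      field_simp
    · push_cast
      rw [hρ, ← hBr]
      field_simp

/-- the squared distance of two points in coordinates -/
lemma pair (S : Set ℂ) (hS : ∀ z ∈ S, ∀ w ∈ S, ∃ q : ℚ, dist z w = q)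
    (a b : ℂ) (ha : a ∈ S) (hb : b ∈ S) (hab : a ≠ b) (D : ℕ) (z w : ℂ) (hz : z ∈ S) (hw : w ∈ S)
    (A B M A' B' M' : ℤ) (hM : 1 ≤ M) (hM' : 1 ≤ M')
    (h1 : (nrm a b z).re = A / M) (h2 : (nrm a b z).im = B * Real.sqrt D / M)
    (h3 : (nrm a b w).re = A' / M') (h4 : (nrm a b w).im = B' * Real.sqrt D / M') :
    ∃ c : ℤ, (A * M' - A' * M) ^ 2 + D * (B * M' - B' * M) ^ 2 = c ^ 2 := by
  obtain ⟨q1, hq1⟩ := hS z hz w hw
  obtain ⟨q2, hq2⟩ := hS a ha b hb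
  have h5 := nrm_dist a b z w hab
  have h6 : ((nrm a b z).re - (nrm a b w).re) ^ 2 + ((nrm a b z).im - (nrm a b w).im) ^ 2 =
      (q1 / q2 : ℝ) ^ 2 := by
    rw [← hq1, ← hq2, ← h5, Complex.sq_norm, Complex.normSq_apply]
    simp
    ring
  have hsD : Real.sqrt D ^ 2 = D := Real.sq_sqrt (by positivity)
  have hMr : (M : ℝ) ≠ 0 := by
    have : (0 : ℝ) < M := by exact_mod_cast hM
    exact this.ne'
  have hMr' : (M' : ℝ) ≠ 0 := by
    have : (0 : ℝ) < M' := by exact_mod_cast hM'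
    exact this.ne'
  have h7 : ((q1 / q2 * M * M' : ℚ) : ℝ) ^ 2 =
      (A * M' - A' * M) ^ 2 + D * (B * M' - B' * M) ^ 2 := by
    push_cast
    rw [mul_pow, mul_pow, ← h6, h1, h2, h3, h4]
    have : (B * Real.sqrt D / M - B' * Real.sqrt D / M') ^ 2 =
        (D : ℝ) * (B / M - B' / M') ^ 2 := by
      linear_combination (B / M - B' / M') ^ 2 * hsD
    rw [this]
    field_simp
  have h8 : (q1 / q2 * M * M' : ℚ) ^ 2 = (((A * M' - A' * M) ^ 2 + D * (B * M' - B' * M) ^ 2 : ℤ) : ℚ) := by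
    have : (((q1 / q2 * M * M' : ℚ) ^ 2 : ℚ) : ℝ) =
        (((((A * M' - A' * M) ^ 2 + D * (B * M' - B' * M) ^ 2 : ℤ) : ℚ)) : ℝ) := by
      push_cast
      push_cast at h7
      rw [h7]
    exact_mod_cast this
  obtain ⟨c, hc⟩ := int_of_sq _ _ h8
  refine ⟨c, ?_⟩
  rw [hc] at h8
  exact_mod_cast h8.symm

end Pool.Agent.H19.RD
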