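import Mathlib

/-!
# Choice of the parameters
-/

namespace Pool.Agent.H19.RD

open Finset

lemma theta_lower (l : ℕ) (hl : 400 ≤ l) :
    ((l : ℝ)) ^ 2 ≤ Real.log (primorial (3 * l ^ 2)) := by
  have h := Chebyshev.theta_ge (3 * l ^ 2)
  have h2 := Chebyshev.theta_eq_log_primorial ((3 * l ^ 2 : ℕ) : ℝ)
  rw [Nat.floor_natCast] at h2
  rw [← h2]
  refine le_trans ?_ h
  have hl' : (400 : ℝ) ≤ l := by exact_mod_cast hl
  set s : ℝ := Real.sqrt l with hs
  have hs2 : s ^ 2 = l := Real.sq_sqrt (by linarith)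
  have hs20 : (20 : ℝ) ≤ s := by
    rw [hs]
    apply Real.le_sqrt_of_sq_le
    linarith
  have hlogs : Real.log s ≤ s - 1 := Real.log_le_sub_one_of_pos (by linarith)
  have hlogl : Real.log l ≤ 2 * s - 2 := by
    rw [← hs2, Real.log_pow]
    push_cast
    linarith
  have hlog2 : 0.6931 < Real.log 2 := by
    have := Real.log_two_gt_d9
    linarith
  have hlog2' : Real.log 2 < 0.7 := by
    have := Real.log_two_lt_d9
    linarith
  have hlog4 : Real.log 4 < 1.4 := by
    have : Real.log 4 = 2 * Real.log 2 := by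
      rw [show (4 : ℝ) = 2 ^ 2 by norm_num, Real.log_pow]
      push_cast; ring
    linarith
  have hlpos : (0 : ℝ) < l := by linarith
  have h4 : Real.log (4 * (l : ℝ) ^ 2) ≤ 4 * s := by
    rw [Real.log_mul (by norm_num) (by positivity), Real.log_pow]
    push_cast
    linarith
  have hlogA : Real.log (((3 * l ^ 2 : ℕ) : ℝ) + 1) ≤ 4 * s := by
    refine le_trans (Real.log_le_log (by positivity) ?_) h4
    push_cast
    nlinarith
  have hlogB : Real.log ((3 * l ^ 2 : ℕ) : ℝ) ≤ 4 * s := by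
    refine le_trans (Real.log_le_log (by positivity) ?_) h4
    push_cast
    nlinarith
  have hlogB0 : 0 ≤ Real.log ((3 * l ^ 2 : ℕ) : ℝ) := by
    apply Real.log_nonneg
    push_cast
    nlinarith
  have hsqrt : Real.sqrt ((3 * l ^ 2 : ℕ) : ℝ) ≤ 2 * l := by
    apply Real.sqrt_le_iff.2
    constructor
    · positivity
    · push_cast
      nlinarith
  have hprod : 2 * Real.sqrt ((3 * l ^ 2 : ℕ) : ℝ) * Real.log ((3 * l ^ 2 : ℕ) : ℝ) ≤
      16 * l * s := by
    calc 2 * Real.sqrt ((3 * l ^ 2 : ℕ) : ℝ) * Real.log ((3 * l ^ 2 : ℕ) : ℝ)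
        ≤ 2 * (2 * l) * (4 * s) := by
          refine mul_le_mul ?_ hlogB hlogB0 (by positivity)
          linarith
      _ = 16 * l * s := by ring
  have hmain : (l : ℝ) ^ 2 ≤ 3 * (l : ℝ) ^ 2 * 0.6931 - 4 * s - 16 * l * s := by
    rw [← hs2]
    have h1 : (0:ℝ) ≤ s ^ 3 := by positivity
    have h2 : s ^ 4 = s * s ^ 3 := by ring
    have h3 : 20 * s ^ 3 ≤ s * s ^ 3 := mul_le_mul_of_nonneg_right hs20 h1
    have h5 : s * 400 ≤ s ^ 3 := by
      have : s ^ 3 = s * s ^ 2 := by ring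
      rw [this, hs2]
      exact mul_le_mul_of_nonneg_left hl' (by linarith)
    nlinarith
  have h5 : (3 * (l : ℝ) ^ 2) * 0.6931 ≤ ((3 * l ^ 2 : ℕ) : ℝ) * Real.log 2 := by
    push_cast
    exact mul_le_mul_of_nonneg_left hlog2.le (by positivity)
  linarith

/-- the primes up to `N` not dividing `2 D` -/
def goodPrimes (N D : ℕ) : Finset ℕ := (range (N + 1)).filter (fun p => p.Prime ∧ ¬ p ∣ 2 * D)

lemma primorial_le (N D : ℕ) (hD : 0 < D) :
    primorial N ≤ (∏ p ∈ goodPrimes N D, p) * (2 * D) := by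
  classical
  have h1 : primorial N = (∏ p ∈ goodPrimes N D, p) *
      ∏ p ∈ (range (N + 1)).filter (fun p => p.Prime ∧ p ∣ 2 * D), p := by
    unfold primorial goodPrimes
    rw [← Finset.prod_union]
    · apply Finset.prod_congr
      · ext p
        simp only [Finset.mem_filter, Finset.mem_union]
        tauto
      · intros; rfl
    · rw [Finset.disjoint_left]
      intro p hp hp'
      rw [Finset.mem_filter] at hp hp'
      exact hp.2.2 hp'.2.2
  rw [h1]
  apply Nat.mul_le_mul_left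
  have hsub : (range (N + 1)).filter (fun p => p.Prime ∧ p ∣ 2 * D) ⊆ (2 * D).primeFactors := by
    intro p hp
    rw [Finset.mem_filter] at hp
    rw [Nat.mem_primeFactors]
    exact ⟨hp.2.1, hp.2.2, by omega⟩
  refine Nat.le_of_dvd (by omega) (dvd_trans ?_ (Nat.prod_primeFactors_dvd (2 * D)))
  exact Finset.prod_dvd_prod_of_subset _ _ _ hsub

/-- **parameters** -/
theorem params : ∃ C : ℝ, 0 < C ∧ ∀ H D : ℕ, 2 ≤ H → 1 ≤ D → D ≤ H →
    ∃ k B N : ℕ, 1 ≤ k ∧ (k : ℝ) ≤ C * Real.log H ∧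
      ∏ p ∈ goodPrimes N D, p ^ (6 * p) < (B + 1) ^ (k ^ 2) ∧
      k ^ 2 * B * H ^ (2 * k) < ∏ p ∈ goodPrimes N D, p := by
  refine ⟨6 * (100 + 402 * 2), by norm_num, ?_⟩
  intro H D hH hD hDH
  set L : ℝ := Real.log H with hL
  have hlog2 : 0.6931 < Real.log 2 := by
    have := Real.log_two_gt_d9
    linarith
  have hlog2' : Real.log 2 < 0.7 := by
    have := Real.log_two_lt_d9
    linarith
  have hHr : (2 : ℝ) ≤ H := by exact_mod_cast hH
  have hL2 : Real.log 2 ≤ L := Real.log_le_log (by norm_num) hHr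
  have hLpos : 0 < L := by linarith
  obtain ⟨l, hl400, hlL, hlup⟩ : ∃ l : ℕ, 400 ≤ l ∧ 100 * L ≤ l ∧ (l : ℝ) ≤ 100 * L + 401 := by
    refine ⟨⌈100 * L⌉₊ + 400, Nat.le_add_left _ _, ?_, ?_⟩
    · push_cast
      have := Nat.le_ceil (100 * L)
      linarith
    · push_cast
      have := Nat.ceil_lt_add_one (show 0 ≤ 100 * L by positivity)
      linarith
  set N : ℕ := 3 * l ^ 2 with hN
  set k : ℕ := 6 * l with hk
  set M : ℕ := ∏ p ∈ goodPrimes N D, p with hM
  have hMpos : 0 < M := by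
    apply Finset.prod_pos
    intro p hp
    rw [goodPrimes, Finset.mem_filter] at hp
    exact hp.2.1.pos
  have hth := theta_lower l hl400
  have hpr := primorial_le N D (by omega)
  have hlogM : (l : ℝ) ^ 2 ≤ Real.log M + (Real.log 2 + L) := by
    refine hth.trans ?_
    have h1 : Real.log (primorial (3 * l ^ 2)) ≤ Real.log ((M * (2 * D) : ℕ) : ℝ) := by
      apply Real.log_le_log
      · exact_mod_cast primorial_pos _
      · exact_mod_cast hpr
    refine h1.trans ?_
    have hD' : (0 : ℝ) < D := by exact_mod_cast hD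
    have hM' : (0 : ℝ) < M := by exact_mod_cast hMpos
    push_cast
    rw [Real.log_mul hM'.ne' (by positivity), Real.log_mul (by norm_num) hD'.ne']
    have : Real.log D ≤ L := Real.log_le_log hD' (by exact_mod_cast hDH)
    linarith
  have hlr : (400 : ℝ) ≤ l := by exact_mod_cast hl400
  -- the key inequality
  have hkey : (k ^ 2 * H ^ (2 * k)) ^ 2 < M := by
    have hkpos : (0 : ℝ) < k := by rw [hk]; push_cast; linarith
    have h1 : Real.log (((k ^ 2 * H ^ (2 * k)) ^ 2 : ℕ) : ℝ) < Real.log M := by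
      push_cast
      rw [Real.log_pow, Real.log_mul (by positivity) (by positivity), Real.log_pow, Real.log_pow]
      push_cast
      have h2 : Real.log k ≤ k - 1 := Real.log_le_sub_one_of_pos hkpos
      have h3 : (k : ℝ) = 6 * l := by rw [hk]; push_cast; ring
      rw [← hL]
      -- 4 log k + 4 k L ≤ 24 l + 24 l L
      have h4 : (l : ℝ) * (100 * L) ≤ l * l := mul_le_mul_of_nonneg_left hlL (by linarith)
      have h5 : (l : ℝ) * 0.69 ≤ l * L := mul_le_mul_of_nonneg_left (by linarith) (by linarith)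
      have h6 : 400 * L ≤ l * L := mul_le_mul_of_nonneg_right hlr hLpos.le
      nlinarith
    have h2 : (((k ^ 2 * H ^ (2 * k)) ^ 2 : ℕ) : ℝ) < M :=
      (Real.log_lt_log_iff (by positivity) (by exact_mod_cast hMpos)).1 h1
    exact_mod_cast h2
  refine ⟨k, Nat.sqrt M, N, by omega, ?_, ?_, ?_⟩
  · rw [hk]
    push_cast
    have : (402 : ℝ) * 2 * L ≥ 401 := by nlinarith
    nlinarith
  · have h1 : ∏ p ∈ goodPrimes N D, p ^ (6 * p) ≤ M ^ (6 * N) := by
      rw [hM, ← Finset.prod_pow]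
      refine Finset.prod_le_prod (fun _ _ => Nat.zero_le _) fun p hp => ?_
      rw [goodPrimes, Finset.mem_filter, Finset.mem_range] at hp
      exact Nat.pow_le_pow_right hp.2.1.pos (by omega)
    have h2 : M < (Nat.sqrt M + 1) ^ 2 := Nat.lt_succ_sqrt' M
    have h3 : k ^ 2 = 2 * (6 * N) := by rw [hk, hN]; ring
    rw [h3, pow_mul]
    refine lt_of_le_of_lt h1 (Nat.pow_lt_pow_left h2 ?_)
    have : 0 < l ^ 2 := by positivity
    omega
  · have h1 : (Nat.sqrt M) ^ 2 ≤ M := Nat.sqrt_le' M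
    have h2 : (k ^ 2 * Nat.sqrt M * H ^ (2 * k)) ^ 2 < M ^ 2 := by
      calc (k ^ 2 * Nat.sqrt M * H ^ (2 * k)) ^ 2
          = (k ^ 2 * H ^ (2 * k)) ^ 2 * (Nat.sqrt M) ^ 2 := by ring
        _ ≤ (k ^ 2 * H ^ (2 * k)) ^ 2 * M := Nat.mul_le_mul_left _ h1
        _ < M * M := Nat.mul_lt_mul_of_pos_right hkey hMpos
        _ = M ^ 2 := by ring
    exact lt_of_pow_lt_pow_left₀ 2 (Nat.zero_le _) h2

end Pool.Agent.H19.RD
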