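import Pool.Agent.H19.RD.Clique
import Pool.Agent.H19.RD.Box
import Pool.Agent.H19.RD.Param
import Pool.Agent.H19.RD.Coord

/-!
# Points of bounded height lie on a curve of logarithmic degree
-/

namespace Pool.Agent.H19.RD

open Finset

/-- residues modulo `p` -/
lemma resid (p : ℕ) [Fact p.Prime] (hp2 : p ≠ 2) (D : ℕ) (hpD : ¬ p ∣ D) (X : Set (ℤ × ℤ × ℤ))
    (hX : ∀ x ∈ X, ∀ y ∈ X, ∃ c : ℤ,
      (x.1 * y.2.2 - y.1 * x.2.2) ^ 2 + D * (x.2.1 * y.2.2 - y.2.1 * x.2.2) ^ 2 = c ^ 2) :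
    ∃ R : Finset (ZMod p × ZMod p × ZMod p), R.card ≤ 6 * p ∧
      ∀ x ∈ X, ∃ r ∈ R, ∃ l : ZMod p,
        (x.1 : ZMod p) = l * r.1 ∧ (x.2.1 : ZMod p) = l * r.2.1 ∧ (x.2.2 : ZMod p) = l * r.2.2 := by
  classical
  have hp : p.Prime := Fact.out
  let T : Finset (ZMod p × ZMod p) := univ.filter (fun τ => ∃ x ∈ X, (x.2.2 : ZMod p) ≠ 0 ∧
    τ = ((x.1 : ZMod p) / x.2.2, (x.2.1 : ZMod p) / x.2.2))
  have hD0 : (D : ZMod p) ≠ 0 := by
    intro h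
    exact hpD ((ZMod.natCast_eq_zero_iff D p).1 h)
  have hT : T.card ≤ 4 * p := by
    refine clique hp2 (D : ZMod p) hD0 T ?_
    intro s hs t ht
    obtain ⟨-, x, hx, hx0, rfl⟩ := Finset.mem_filter.1 hs
    obtain ⟨-, y, hy, hy0, rfl⟩ := Finset.mem_filter.1 ht
    obtain ⟨c, hc⟩ := hX x hx y hy
    refine ⟨(c : ZMod p) / (x.2.2 * y.2.2), ?_⟩
    have hc' := congrArg (fun n : ℤ => (n : ZMod p)) hc
    push_cast at hc'
    field_simp
    linear_combination hc'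
  let R : Finset (ZMod p × ZMod p × ZMod p) := T.image (fun τ => (τ.1, τ.2, 1)) ∪
    ((univ : Finset (ZMod p)).image (fun t => (1, t, 0)) ∪ {(0, 1, 0)})
  refine ⟨R, ?_, ?_⟩
  · have h1 : (T.image (fun τ : ZMod p × ZMod p => (τ.1, τ.2, (1 : ZMod p)))).card ≤ 4 * p :=
      Finset.card_image_le.trans hT
    have h2 : ((univ : Finset (ZMod p)).image (fun t => ((1 : ZMod p), t, (0 : ZMod p)))).card ≤ p := by
      refine Finset.card_image_le.trans ?_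
      simp [ZMod.card]
    have h3 := Finset.card_union_le (T.image (fun τ : ZMod p × ZMod p => (τ.1, τ.2, (1 : ZMod p))))
      ((univ : Finset (ZMod p)).image (fun t => ((1 : ZMod p), t, (0 : ZMod p))) ∪ {(0, 1, 0)})
    have h4 := Finset.card_union_le
      ((univ : Finset (ZMod p)).image (fun t => ((1 : ZMod p), t, (0 : ZMod p))))
      {((0 : ZMod p), (1 : ZMod p), (0 : ZMod p))}
    rw [Finset.card_singleton] at h4
    have := hp.two_le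
    show (T.image (fun τ : ZMod p × ZMod p => (τ.1, τ.2, (1 : ZMod p))) ∪
      ((univ : Finset (ZMod p)).image (fun t => ((1 : ZMod p), t, (0 : ZMod p))) ∪ {(0, 1, 0)})).card ≤ 6 * p
    omega
  · intro x hx
    by_cases h0 : (x.2.2 : ZMod p) = 0
    · by_cases h1 : (x.1 : ZMod p) = 0
      · refine ⟨(0, 1, 0), ?_, (x.2.1 : ZMod p), by simp [h1], by simp, by simp [h0]⟩
        simp [R]
      · refine ⟨(1, (x.2.1 : ZMod p) / x.1, 0), ?_, (x.1 : ZMod p), by simp, by field_simp,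
          by simp [h0]⟩
        simp [R]
    · refine ⟨((x.1 : ZMod p) / x.2.2, (x.2.1 : ZMod p) / x.2.2, 1), ?_, (x.2.2 : ZMod p),
        by field_simp, by field_simp, by simp⟩
      apply Finset.mem_union_left
      apply Finset.mem_image.2
      refine ⟨((x.1 : ZMod p) / x.2.2, (x.2.1 : ZMod p) / x.2.2), ?_, rfl⟩
      exact Finset.mem_filter.2 ⟨mem_univ _, x, hx, h0, rfl⟩

/-- an integral form of logarithmic degree vanishing on the coordinates -/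
theorem form_vanish : ∃ C : ℝ, 0 < C ∧ ∀ H D : ℕ, 2 ≤ H → 1 ≤ D → D ≤ H →
    ∀ X : Set (ℤ × ℤ × ℤ), (∀ x ∈ X, |x.1| ≤ H ∧ |x.2.1| ≤ H ∧ |x.2.2| ≤ H) →
    (∀ x ∈ X, ∀ y ∈ X, ∃ c : ℤ,
      (x.1 * y.2.2 - y.1 * x.2.2) ^ 2 + D * (x.2.1 * y.2.2 - y.2.1 * x.2.2) ^ 2 = c ^ 2) →
    ∃ k : ℕ, 1 ≤ k ∧ (k : ℝ) ≤ C * Real.log H ∧ ∃ c : Fin k × Fin k → ℤ, c ≠ 0 ∧
      ∀ x ∈ X, ev k c x = 0 := by
  classical
  obtain ⟨C, hC, hpar⟩ := params
  refine ⟨C, hC, ?_⟩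
  intro H D hH hD hDH X hXb hX
  obtain ⟨k, B, N, hk1, hkC, hbox, hbig⟩ := hpar H D hH hD hDH
  have hgood : ∀ p ∈ goodPrimes N D, p.Prime ∧ p ≠ 2 ∧ ¬ p ∣ D := by
    intro p hp
    rw [goodPrimes, Finset.mem_filter] at hp
    refine ⟨hp.2.1, ?_, fun h => hp.2.2 (h.mul_left 2)⟩
    rintro rfl
    exact hp.2.2 (dvd_mul_right 2 D)
  have hres : ∀ p : ℕ, ∃ R : Finset (ZMod p × ZMod p × ZMod p), p ∈ goodPrimes N D →
      R.card ≤ 6 * p ∧ ∀ x ∈ X, ∃ r ∈ R, ∃ l : ZMod p,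
        (x.1 : ZMod p) = l * r.1 ∧ (x.2.1 : ZMod p) = l * r.2.1 ∧
          (x.2.2 : ZMod p) = l * r.2.2 := by
    intro p
    by_cases hp : p ∈ goodPrimes N D
    · obtain ⟨h1, h2, h3⟩ := hgood p hp
      haveI : Fact p.Prime := ⟨h1⟩
      obtain ⟨R, hR⟩ := resid p h2 D h3 X hX
      exact ⟨R, fun _ => hR⟩
    · exact ⟨∅, fun h => absurd h hp⟩
  choose R hR using hres
  obtain ⟨c, hc0, hcB, hcR⟩ := box k B (goodPrimes N D) (fun p hp => (hgood p hp).1) R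
    (fun p hp => (hR p hp).1) hbox
  refine ⟨k, hk1, hkC, c, hc0, ?_⟩
  rintro ⟨x, y, m⟩ hx
  obtain ⟨hb1, hb2, hb3⟩ := hXb _ hx
  have hbd := ev_bound k c B H hcB x y m (by omega) hb1 hb2 hb3
  have hdvd : ((∏ p ∈ goodPrimes N D, p : ℕ) : ℤ) ∣ ev k c (x, y, m) := by
    rw [Nat.cast_prod]
    apply Finset.prod_dvd_of_coprime
    · intro p hp q hq hpq
      have h1 := (hgood p hp).1
      have h2 := (hgood q hq).1
      exact Nat.Coprime.isCoprime ((Nat.coprime_primes h1 h2).2 hpq)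
    · intro p hp
      obtain ⟨r, hr, l, e1, e2, e3⟩ := (hR p hp).2 _ hx
      rw [← ZMod.intCast_zmod_eq_zero_iff_dvd, ev_cast]
      simp only at e1 e2 e3
      rw [e1, e2, e3, ev_smul, hcR p hp r hr, mul_zero]
  by_contra hne
  have h1 := Int.le_of_dvd (abs_pos.2 hne) ((dvd_abs _ _).2 hdvd)
  have h2 : ((k ^ 2 * B * H ^ (2 * k) : ℕ) : ℤ) < ((∏ p ∈ goodPrimes N D, p : ℕ) : ℤ) := by
    exact_mod_cast hbig
  linarith

end Pool.Agent.H19.RD
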