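import Pool.Agent.H19.RD.Hole

/-!
# Cells of a grid met by a plane algebraic curve
-/

namespace Pool.Agent.H19.RD

open MvPolynomial Finset

/-- the closed grid cell `(i, j)` contains a zero of `f` -/
def hit (α β h : ℝ) (f : MvPolynomial (Fin 2) ℝ) (i j : ℕ) : Prop :=
  ∃ x y : ℝ, α + i * h ≤ x ∧ x ≤ α + (i + 1) * h ∧ β + j * h ≤ y ∧ y ≤ β + (j + 1) * h ∧
    eval ![x, y] f = 0

lemma card_le_two (S : Finset ℕ) (h : ∀ a ∈ S, ∀ b ∈ S, a ≤ b + 1) : S.card ≤ 2 := by
  rcases S.eq_empty_or_nonempty with rfl | hne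
  · simp
  · have hsub : S ⊆ {S.min' hne, S.min' hne + 1} := by
      intro a ha
      have h1 := h a ha _ (S.min'_mem hne)
      have h2 := S.min'_le a ha
      simp only [Finset.mem_insert, Finset.mem_singleton]
      omega
    exact (Finset.card_le_card hsub).trans Finset.card_le_two

/-- a point lies in at most two closed intervals of the grid -/
lemma line_count (β h : ℝ) (hh : 0 < h) (S : Finset ℕ) (y : ℕ → ℝ)
    (hy : ∀ j ∈ S, β + j * h ≤ y j ∧ y j ≤ β + (j + 1) * h) :
    S.card ≤ 2 * (S.image y).card := by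
  apply Finset.card_le_mul_card_image
  intro t _
  apply card_le_two
  intro a ha b hb
  rw [Finset.mem_filter] at ha hb
  have h1 := (hy a ha.1).1
  have h2 := (hy b hb.1).2
  rw [ha.2] at h1
  rw [hb.2] at h2
  have h3 : (a : ℝ) * h ≤ ((b : ℝ) + 1) * h := by linarith
  have h4 : (a : ℝ) ≤ (b : ℝ) + 1 := le_of_mul_le_mul_right h3 hh
  exact_mod_cast h4

lemma deg_lin (i : Fin 2) (c : ℝ) :
    (X i - C c : MvPolynomial (Fin 2) ℝ).totalDegree ≤ 1 := by
  refine (totalDegree_sub _ _).trans ?_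
  simp [totalDegree_X, totalDegree_C]

lemma lin_ne (i : Fin 2) (c : ℝ) : (X i - C c : MvPolynomial (Fin 2) ℝ) ≠ 0 := by
  intro h
  have := congrArg (eval (fun _ => c + 1)) h
  simp at this

/-- cells met on the vertical lines `x = x_i` -/
lemma vert_count (β h : ℝ) (hh : 0 < h) (k : ℕ) (f : MvPolynomial (Fin 2) ℝ) (hf : f ≠ 0)
    (x : ℕ → ℝ) (hx : ∀ i ∈ range k, IsRelPrime f (X 0 - C (x i)))
    (B : Finset (ℕ × ℕ)) (hB : ∀ p ∈ B, p.1 ∈ range k ∧ ∃ y : ℝ, β + p.2 * h ≤ y ∧
      y ≤ β + (p.2 + 1) * h ∧ eval ![x p.1, y] f = 0) :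
    B.card ≤ (2 * f.totalDegree) * k := by
  classical
  have h1 : B.card ≤ (2 * f.totalDegree) * (B.image Prod.fst).card := by
    apply Finset.card_le_mul_card_image
    intro i hi
    have hik : i ∈ range k := by
      obtain ⟨p, hp, rfl⟩ := Finset.mem_image.1 hi
      exact (hB p hp).1
    set S := ({p ∈ B | p.1 = i}).image Prod.snd with hS
    have hcard : ({p ∈ B | p.1 = i}).card = S.card := by
      rw [hS, Finset.card_image_of_injOn]
      intro a ha b hb hab
      simp only [Finset.coe_filter, Set.mem_ofPred_eq] at ha hb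
      exact Prod.ext (ha.2.trans hb.2.symm) hab
    rw [hcard]
    have hy : ∀ j : ℕ, ∃ y : ℝ, j ∈ S → β + j * h ≤ y ∧ y ≤ β + (j + 1) * h ∧
        eval ![x i, y] f = 0 := by
      intro j
      by_cases hj : j ∈ S
      · rw [hS, Finset.mem_image] at hj
        obtain ⟨p, hp, rfl⟩ := hj
        rw [Finset.mem_filter] at hp
        obtain ⟨y, hy1, hy2, hy3⟩ := (hB p hp.1).2
        rw [hp.2] at hy3
        exact ⟨y, fun _ => ⟨hy1, hy2, hy3⟩⟩
      · exact ⟨0, fun h => absurd h hj⟩
    choose y hy using hy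
    have h2 := line_count β h hh S y (fun j hj => ⟨(hy j hj).1, (hy j hj).2.1⟩)
    have h3 : (S.image y).card = ((S.image y).image (fun t => (![x i, t] : Fin 2 → ℝ))).card := by
      refine (Finset.card_image_of_injective (S.image y) ?_).symm
      intro a b hab
      have := congrFun hab 1
      simpa using this
    have h4 := bez_pts f (X 0 - C (x i)) hf (lin_ne _ _) (hx i hik)
      ((S.image y).image (fun t => (![x i, t] : Fin 2 → ℝ))) (by
        intro t ht
        simp only [Finset.mem_image] at ht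
        obtain ⟨a, ⟨j, hj, rfl⟩, rfl⟩ := ht
        refine ⟨(hy j hj).2.2, ?_⟩
        simp)
    have h5 : f.totalDegree * (X 0 - C (x i) : MvPolynomial (Fin 2) ℝ).totalDegree ≤
        f.totalDegree * 1 := Nat.mul_le_mul_left _ (deg_lin _ _)
    omega
  have h2 : (B.image Prod.fst).card ≤ k := by
    have : B.image Prod.fst ⊆ range k := by
      intro i hi
      obtain ⟨p, hp, rfl⟩ := Finset.mem_image.1 hi
      exact (hB p hp).1
    simpa using Finset.card_le_card this
  exact h1.trans (Nat.mul_le_mul_left _ h2)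

/-- cells met on the horizontal lines `y = y_j` -/
lemma hor_count (α h : ℝ) (hh : 0 < h) (k : ℕ) (f : MvPolynomial (Fin 2) ℝ) (hf : f ≠ 0)
    (y : ℕ → ℝ) (hy : ∀ j ∈ range k, IsRelPrime f (X 1 - C (y j)))
    (B : Finset (ℕ × ℕ)) (hB : ∀ p ∈ B, p.2 ∈ range k ∧ ∃ x : ℝ, α + p.1 * h ≤ x ∧
      x ≤ α + (p.1 + 1) * h ∧ eval ![x, y p.2] f = 0) :
    B.card ≤ (2 * f.totalDegree) * k := by
  classical
  have h1 : B.card ≤ (2 * f.totalDegree) * (B.image Prod.snd).card := by
    apply Finset.card_le_mul_card_image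
    intro i hi
    have hik : i ∈ range k := by
      obtain ⟨p, hp, rfl⟩ := Finset.mem_image.1 hi
      exact (hB p hp).1
    set S := ({p ∈ B | p.2 = i}).image Prod.fst with hS
    have hcard : ({p ∈ B | p.2 = i}).card = S.card := by
      rw [hS, Finset.card_image_of_injOn]
      intro a ha b hb hab
      simp only [Finset.coe_filter, Set.mem_ofPred_eq] at ha hb
      exact Prod.ext hab (ha.2.trans hb.2.symm)
    rw [hcard]
    have hx : ∀ j : ℕ, ∃ x : ℝ, j ∈ S → α + j * h ≤ x ∧ x ≤ α + (j + 1) * h ∧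
        eval ![x, y i] f = 0 := by
      intro j
      by_cases hj : j ∈ S
      · rw [hS, Finset.mem_image] at hj
        obtain ⟨p, hp, rfl⟩ := hj
        rw [Finset.mem_filter] at hp
        obtain ⟨x, hx1, hx2, hx3⟩ := (hB p hp.1).2
        rw [hp.2] at hx3
        exact ⟨x, fun _ => ⟨hx1, hx2, hx3⟩⟩
      · exact ⟨0, fun h => absurd h hj⟩
    choose x hx using hx
    have h2 := line_count α h hh S x (fun j hj => ⟨(hx j hj).1, (hx j hj).2.1⟩)
    have h3 : (S.image x).card = ((S.image x).image (fun t => (![t, y i] : Fin 2 → ℝ))).card := by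
      refine (Finset.card_image_of_injective (S.image x) ?_).symm
      intro a b hab
      have := congrFun hab 0
      simpa using this
    have h4 := bez_pts f (X 1 - C (y i)) hf (lin_ne _ _) (hy i hik)
      ((S.image x).image (fun t => (![t, y i] : Fin 2 → ℝ))) (by
        intro t ht
        simp only [Finset.mem_image] at ht
        obtain ⟨a, ⟨j, hj, rfl⟩, rfl⟩ := ht
        refine ⟨(hx j hj).2.2, ?_⟩
        simp)
    have h5 : f.totalDegree * (X 1 - C (y i) : MvPolynomial (Fin 2) ℝ).totalDegree ≤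
        f.totalDegree * 1 := Nat.mul_le_mul_left _ (deg_lin _ _)
    omega
  have h2 : (B.image Prod.snd).card ≤ k := by
    have : B.image Prod.snd ⊆ range k := by
      intro i hi
      obtain ⟨p, hp, rfl⟩ := Finset.mem_image.1 hi
      exact (hB p hp).1
    simpa using Finset.card_le_card this
  exact h1.trans (Nat.mul_le_mul_left _ h2)

/-- if `∂f/∂y = 0` then `f` does not depend on `y` -/
lemma const_of_pderiv (f : MvPolynomial (Fin 2) ℝ) (h : pderiv 1 f = 0) (x y y' : ℝ) :
    eval ![x, y] f = eval ![x, y'] f := by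
  have hd : Differentiable ℝ (fun t => eval ![x, t] f) :=
    fun t => (hasDerivAt_line f x t).differentiableAt
  have h0 : ∀ t, deriv (fun t => eval ![x, t] f) t = 0 := by
    intro t
    rw [(hasDerivAt_line f x t).deriv, h, map_zero]
  exact is_const_of_deriv_eq_zero hd h0 y y'

lemma deg_le_of_dvd (f g : MvPolynomial (Fin 2) ℝ) (hg : g ≠ 0) (h : f ∣ g) :
    f.totalDegree ≤ g.totalDegree := by
  obtain ⟨q, rfl⟩ := h
  have hf : f ≠ 0 := left_ne_zero_of_mul hg
  have hq : q ≠ 0 := right_ne_zero_of_mul hg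
  rw [totalDegree_mul_of_isDomain hf hq]
  omega

lemma irr_deg (f : MvPolynomial (Fin 2) ℝ) (hf : Irreducible f) : 1 ≤ f.totalDegree := by
  by_contra hcon
  have h0 : f.totalDegree = 0 := by omega
  have h1 := totalDegree_eq_zero_iff_eq_C.1 h0
  have hne := hf.ne_zero
  apply hf.not_isUnit
  rw [h1]
  have : coeff 0 f ≠ 0 := by
    intro hc
    rw [hc, C_0] at h1
    exact hne h1
  exact (isUnit_iff_ne_zero.2 this).map C

open Classical in
/-- the set of the grid cells met by the curve -/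
noncomputable def badCells (α β h : ℝ) (k : ℕ) (f : MvPolynomial (Fin 2) ℝ) : Finset (ℕ × ℕ) :=
  (range k ×ˢ range k).filter (fun p => hit α β h f p.1 p.2)

lemma irr_count (α β h : ℝ) (hh : 0 < h) (k : ℕ) (f : MvPolynomial (Fin 2) ℝ)
    (hf : Irreducible f) (hk : f.totalDegree ≤ k) :
    (badCells α β h k f).card ≤ 9 * k * f.totalDegree := by
  classical
  have he := irr_deg f hf
  have hne := hf.ne_zero
  set e := f.totalDegree with hedef
  have hmemB : ∀ p, p ∈ badCells α β h k f ↔ (p.1 ∈ range k ∧ p.2 ∈ range k) ∧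
      hit α β h f p.1 p.2 := by
    intro p
    rw [badCells, Finset.mem_filter, Finset.mem_product]
  have hcast : ∀ (a b : ℕ) (c : ℝ), c + a * h ≤ c + (b + 1 : ℝ) * h → a ≤ b + 1 := by
    intro a b c hab
    have h3 : (a : ℝ) * h ≤ ((b : ℝ) + 1) * h := by linarith
    have h4 : (a : ℝ) ≤ (b : ℝ) + 1 := le_of_mul_le_mul_right h3 hh
    exact_mod_cast h4
  -- curves inside a grid line
  by_cases hA : ∃ m : ℕ, f ∣ X 0 - C (α + m * h)
  · obtain ⟨m, hm⟩ := hA
    have hsub : badCells α β h k f ⊆ ({m - 1, m} : Finset ℕ) ×ˢ range k := by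
      intro p hp
      rw [hmemB] at hp
      obtain ⟨⟨h1, h2⟩, x, y, hx1, hx2, hy1, hy2, h0⟩ := hp
      have hx : x = α + m * h := by
        obtain ⟨q, hq⟩ := hm
        have := congrArg (eval ![x, y]) hq
        rw [map_mul, h0, zero_mul] at this
        simp at this
        linarith
      rw [hx] at hx1 hx2
      have h3 := hcast m p.1 α hx2
      have h4 : (p.1 : ℝ) * h ≤ (m : ℝ) * h := by linarith
      have h5 : (p.1 : ℝ) ≤ (m : ℝ) := le_of_mul_le_mul_right h4 hh
      have h6 : p.1 ≤ m := by exact_mod_cast h5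
      rw [Finset.mem_product]
      refine ⟨?_, h2⟩
      simp only [Finset.mem_insert, Finset.mem_singleton]
      omega
    have h1 := Finset.card_le_card hsub
    rw [Finset.card_product, Finset.card_range] at h1
    have h2 : ({m - 1, m} : Finset ℕ).card ≤ 2 := Finset.card_le_two
    have h3 : ({m - 1, m} : Finset ℕ).card * k ≤ 2 * k := Nat.mul_le_mul_right _ h2
    have h4 : 9 * k * 1 ≤ 9 * k * e := Nat.mul_le_mul_left _ he
    omega
  by_cases hB : ∃ m : ℕ, f ∣ X 1 - C (β + m * h)
  · obtain ⟨m, hm⟩ := hB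
    have hsub : badCells α β h k f ⊆ range k ×ˢ ({m - 1, m} : Finset ℕ) := by
      intro p hp
      rw [hmemB] at hp
      obtain ⟨⟨h1, h2⟩, x, y, hx1, hx2, hy1, hy2, h0⟩ := hp
      have hy : y = β + m * h := by
        obtain ⟨q, hq⟩ := hm
        have := congrArg (eval ![x, y]) hq
        rw [map_mul, h0, zero_mul] at this
        simp at this
        linarith
      rw [hy] at hy1 hy2
      have h3 := hcast m p.2 β hy2
      have h4 : (p.2 : ℝ) * h ≤ (m : ℝ) * h := by linarith
      have h5 : (p.2 : ℝ) ≤ (m : ℝ) := le_of_mul_le_mul_right h4 hh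
      have h6 : p.2 ≤ m := by exact_mod_cast h5
      rw [Finset.mem_product]
      refine ⟨h1, ?_⟩
      simp only [Finset.mem_insert, Finset.mem_singleton]
      omega
    have h1 := Finset.card_le_card hsub
    rw [Finset.card_product, Finset.card_range] at h1
    have h2 : ({m - 1, m} : Finset ℕ).card ≤ 2 := Finset.card_le_two
    have h3 : k * ({m - 1, m} : Finset ℕ).card ≤ k * 2 := Nat.mul_le_mul_left _ h2
    have h4 : 9 * k * 1 ≤ 9 * k * e := Nat.mul_le_mul_left _ he
    omega
  push Not at hA hB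
  have hA' : ∀ m : ℕ, IsRelPrime f (X 0 - C (α + m * h)) := fun m =>
    (hf.dvd_or_isRelPrime).resolve_left (hA m)
  have hB' : ∀ m : ℕ, IsRelPrime f (X 1 - C (β + m * h)) := fun m =>
    (hf.dvd_or_isRelPrime).resolve_left (hB m)
  -- the four families of cells met on a side
  set B := badCells α β h k f with hBdef
  set BL := B.filter (fun p => ∃ y : ℝ, β + p.2 * h ≤ y ∧ y ≤ β + (p.2 + 1) * h ∧
    eval ![α + p.1 * h, y] f = 0) with hBL
  set BR := B.filter (fun p => ∃ y : ℝ, β + p.2 * h ≤ y ∧ y ≤ β + (p.2 + 1) * h ∧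
    eval ![α + (p.1 + 1 : ℕ) * h, y] f = 0) with hBR
  set BD := B.filter (fun p => ∃ x : ℝ, α + p.1 * h ≤ x ∧ x ≤ α + (p.1 + 1) * h ∧
    eval ![x, β + p.2 * h] f = 0) with hBD
  set BU := B.filter (fun p => ∃ x : ℝ, α + p.1 * h ≤ x ∧ x ≤ α + (p.1 + 1) * h ∧
    eval ![x, β + (p.2 + 1 : ℕ) * h] f = 0) with hBU
  set BI := B \ (BL ∪ BR ∪ BD ∪ BU) with hBI
  have cL : BL.card ≤ (2 * e) * k := by
    apply vert_count β h hh k f hne (fun i => α + i * h) (fun i _ => hA' i)
    intro p hp
    rw [hBL, Finset.mem_filter] at hp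
    exact ⟨((hmemB p).1 hp.1).1.1, hp.2⟩
  have cR : BR.card ≤ (2 * e) * k := by
    apply vert_count β h hh k f hne (fun i => α + (i + 1 : ℕ) * h) (fun i _ => hA' (i + 1))
    intro p hp
    rw [hBR, Finset.mem_filter] at hp
    exact ⟨((hmemB p).1 hp.1).1.1, hp.2⟩
  have cD : BD.card ≤ (2 * e) * k := by
    apply hor_count α h hh k f hne (fun i => β + i * h) (fun i _ => hB' i)
    intro p hp
    rw [hBD, Finset.mem_filter] at hp
    exact ⟨((hmemB p).1 hp.1).1.2, hp.2⟩
  have cU : BU.card ≤ (2 * e) * k := by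
    apply hor_count α h hh k f hne (fun i => β + (i + 1 : ℕ) * h) (fun i _ => hB' (i + 1))
    intro p hp
    rw [hBU, Finset.mem_filter] at hp
    exact ⟨((hmemB p).1 hp.1).1.2, hp.2⟩
  -- cells met in the interior only
  have cI : BI.card ≤ e * k := by
    have hI : ∀ p ∈ BI, pderiv 1 f ≠ 0 ∧ ∃ x y : ℝ, α + p.1 * h ≤ x ∧ x < α + (p.1 + 1) * h ∧
        β + p.2 * h ≤ y ∧ y < β + (p.2 + 1) * h ∧ eval ![x, y] f = 0 ∧
        eval ![x, y] (pderiv 1 f) = 0 := by
      intro p hp
      rw [hBI, Finset.mem_sdiff] at hp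
      obtain ⟨hpB, hp2⟩ := hp
      simp only [Finset.mem_union, not_or] at hp2
      obtain ⟨⟨⟨-, hR⟩, hD⟩, hU⟩ := hp2
      rw [hBR, Finset.mem_filter, not_and] at hR
      rw [hBD, Finset.mem_filter, not_and] at hD
      rw [hBU, Finset.mem_filter, not_and] at hU
      have hR := hR hpB
      have hD := hD hpB
      have hU := hU hpB
      push_cast at hR hU
      have hhit := ((hmemB p).1 hpB).2
      refine ⟨?_, ?_⟩
      · intro h0
        obtain ⟨x, y, hx1, hx2, hy1, hy2, hz⟩ := hhit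
        apply hD
        refine ⟨x, hx1, hx2, ?_⟩
        rw [const_of_pderiv f h0 x _ y]
        exact hz
      · obtain ⟨x, y, h1, h2, h3, h4, h5, h6⟩ := crit f (α + p.1 * h) (α + (p.1 + 1) * h)
          (β + p.2 * h) (β + (p.2 + 1) * h) hhit
          (fun y hy1 hy2 h0 => hR ⟨y, hy1, hy2, h0⟩)
          (fun x hx1 hx2 h0 => hD ⟨x, hx1, hx2, h0⟩)
          (fun x hx1 hx2 h0 => hU ⟨x, hx1, hx2, h0⟩)
        exact ⟨x, y, h1, h2, h3.le, h4, h5, h6⟩
    rcases BI.eq_empty_or_nonempty with h0 | ⟨p0, hp0⟩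
    · rw [h0]; simp
    have hd0 := (hI p0 hp0).1
    have hrel : IsRelPrime f (pderiv 1 f) := by
      refine (hf.dvd_or_isRelPrime).resolve_left ?_
      intro hdvd
      have h1 := deg_le_of_dvd f _ hd0 hdvd
      have h2 := pderiv_deg f 1
      omega
    have hex : ∀ p : ℕ × ℕ, ∃ v : ℝ × ℝ, p ∈ BI → α + p.1 * h ≤ v.1 ∧ v.1 < α + (p.1 + 1) * h ∧
        β + p.2 * h ≤ v.2 ∧ v.2 < β + (p.2 + 1) * h ∧ eval ![v.1, v.2] f = 0 ∧
        eval ![v.1, v.2] (pderiv 1 f) = 0 := by
      intro p
      by_cases hp : p ∈ BI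
      · obtain ⟨x, y, hxy⟩ := (hI p hp).2
        exact ⟨(x, y), fun _ => hxy⟩
      · exact ⟨0, fun h => absurd h hp⟩
    choose v hv using hex
    have hinj : Set.InjOn (fun p => (![(v p).1, (v p).2] : Fin 2 → ℝ)) BI := by
      intro p hp q hq hpq
      have h1 : (v p).1 = (v q).1 := by simpa using congrFun hpq 0
      have h2 : (v p).2 = (v q).2 := by simpa using congrFun hpq 1
      obtain ⟨p1, p2, p3, p4, -⟩ := hv p hp
      obtain ⟨q1, q2, q3, q4, -⟩ := hv q hq
      have hlt : ∀ (a b : ℕ) (c : ℝ), c + a * h < c + (b + 1 : ℝ) * h → a ≤ b := by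
        intro a b c hab
        have h3 : (a : ℝ) * h < ((b : ℝ) + 1) * h := by linarith
        have h4 : (a : ℝ) < (b : ℝ) + 1 := lt_of_mul_lt_mul_right h3 hh.le
        have h5 : a < b + 1 := by exact_mod_cast h4
        omega
      apply Prod.ext
      · apply le_antisymm
        · exact hlt _ _ α (by rw [h1] at p1; linarith)
        · exact hlt _ _ α (by rw [← h1] at q1; linarith)
      · apply le_antisymm
        · exact hlt _ _ β (by rw [h2] at p3; linarith)
        · exact hlt _ _ β (by rw [← h2] at q3; linarith)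
    have h4 := bez_pts f (pderiv 1 f) hne hd0 hrel
      (BI.image (fun p => (![(v p).1, (v p).2] : Fin 2 → ℝ))) (by
        intro t ht
        rw [Finset.mem_image] at ht
        obtain ⟨p, hp, rfl⟩ := ht
        obtain ⟨-, -, -, -, h5, h6⟩ := hv p hp
        exact ⟨h5, h6⟩)
    rw [Finset.card_image_of_injOn hinj] at h4
    refine h4.trans (Nat.mul_le_mul_left _ ?_)
    have := pderiv_deg f 1
    omega
  have hsub : B ⊆ BI ∪ (BL ∪ BR ∪ BD ∪ BU) := by
    intro p hp
    by_cases hp2 : p ∈ BL ∪ BR ∪ BD ∪ BU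
    · exact Finset.mem_union_right _ hp2
    · exact Finset.mem_union_left _ (Finset.mem_sdiff.2 ⟨hp, hp2⟩)
  have h1 := Finset.card_le_card hsub
  have h2 := Finset.card_union_le BI (BL ∪ BR ∪ BD ∪ BU)
  have h3 := Finset.card_union_le (BL ∪ BR ∪ BD) BU
  have h4 := Finset.card_union_le (BL ∪ BR) BD
  have h5 := Finset.card_union_le BL BR
  have h6 : 9 * k * e = e * k + 4 * ((2 * e) * k) := by ring
  omega

lemma grid_count (α β h : ℝ) (hh : 0 < h) (k : ℕ) (f : MvPolynomial (Fin 2) ℝ) (hf : f ≠ 0)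
    (hk : f.totalDegree ≤ k) : (badCells α β h k f).card ≤ 9 * k * f.totalDegree := by
  classical
  induction f using WfDvdMonoid.induction_on_irreducible with
  | zero => exact absurd rfl hf
  | unit u hu =>
      have : badCells α β h k u = ∅ := by
        rw [Finset.eq_empty_iff_forall_notMem]
        intro p hp
        rw [badCells, Finset.mem_filter] at hp
        obtain ⟨x, y, -, -, -, -, h0⟩ := hp.2
        have h1 := hu.map (eval ![x, y])
        rw [h0] at h1
        exact not_isUnit_zero h1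
      rw [this]
      simp
  | mul a i ha hi ih =>
      have hdeg : (i * a).totalDegree = i.totalDegree + a.totalDegree :=
        totalDegree_mul_of_isDomain hi.ne_zero ha
      have h1 := ih ha (by omega)
      have h2 := irr_count α β h hh k i hi (by omega)
      have hsub : badCells α β h k (i * a) ⊆ badCells α β h k i ∪ badCells α β h k a := by
        intro p hp
        rw [Finset.mem_union]
        simp only [badCells, Finset.mem_filter] at hp ⊢
        obtain ⟨hp1, x, y, h1, h2, h3, h4, h0⟩ := hp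
        rw [map_mul] at h0
        rcases mul_eq_zero.1 h0 with h0 | h0
        · exact Or.inl ⟨hp1, x, y, h1, h2, h3, h4, h0⟩
        · exact Or.inr ⟨hp1, x, y, h1, h2, h3, h4, h0⟩
      have h3 := (Finset.card_le_card hsub).trans (Finset.card_union_le _ _)
      rw [hdeg, mul_add]
      omega

/-- **a curve of degree `n` misses a disc of radius `r / (20 n)` in every disc of radius `r`** -/
theorem hole (F : MvPolynomial (Fin 2) ℝ) (hF : F ≠ 0) (n : ℕ) (hn : 1 ≤ n)
    (hdeg : F.totalDegree ≤ n) (c : ℂ) (r : ℝ) (hr : 0 < r) :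
    ∃ w : ℂ, Metric.ball w (r / (20 * n)) ⊆ Metric.ball c r ∧
      ∀ z ∈ Metric.ball w (r / (20 * n)), eval ![z.re, z.im] F ≠ 0 := by
  classical
  set k : ℕ := 10 * n with hk
  have hk0 : 0 < k := by omega
  have hkR : (0 : ℝ) < k := by exact_mod_cast hk0
  set h : ℝ := r / k with hh
  have hh0 : 0 < h := div_pos hr hkR
  have hkh : (k : ℝ) * h = r := by rw [hh]; field_simp
  set α := c.re - r / 2 with hα
  set β := c.im - r / 2 with hβ
  have hcount := grid_count α β h hh0 k F hF (by omega)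
  have hlt : (badCells α β h k F).card < (range k ×ˢ range k).card := by
    rw [Finset.card_product, Finset.card_range]
    refine hcount.trans_lt ?_
    have h1 : 9 * k * F.totalDegree ≤ 9 * k * n := Nat.mul_le_mul_left _ hdeg
    have h2 : 9 * k * n < k * k := by
      rw [hk]
      nlinarith
    omega
  obtain ⟨p, hp, hpB⟩ := Finset.exists_mem_notMem_of_card_lt_card hlt
  rw [Finset.mem_product, Finset.mem_range, Finset.mem_range] at hp
  obtain ⟨hp1, hp2⟩ := hp
  have hno : ¬ hit α β h F p.1 p.2 := by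
    intro hhit
    apply hpB
    rw [badCells, Finset.mem_filter, Finset.mem_product, Finset.mem_range, Finset.mem_range]
    exact ⟨⟨hp1, hp2⟩, hhit⟩
  have hrad : r / (20 * n) = h / 2 := by
    rw [hh, hk]
    push_cast
    have : (n : ℝ) ≠ 0 := by
      have : (0 : ℝ) < n := by exact_mod_cast hn
      exact this.ne'
    field_simp
    norm_num
  have hpi1 : ((p.1 : ℝ) + 1) * h ≤ r := by
    rw [← hkh]
    apply mul_le_mul_of_nonneg_right _ hh0.le
    exact_mod_cast hp1
  have hpi2 : ((p.2 : ℝ) + 1) * h ≤ r := by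
    rw [← hkh]
    apply mul_le_mul_of_nonneg_right _ hh0.le
    exact_mod_cast hp2
  have hp10 : 0 ≤ (p.1 : ℝ) * h := by positivity
  have hp20 : 0 ≤ (p.2 : ℝ) * h := by positivity
  refine ⟨⟨α + p.1 * h + h / 2, β + p.2 * h + h / 2⟩, ?_, ?_⟩
  · intro z hz
    rw [hrad, Metric.mem_ball, Complex.dist_eq] at hz
    have h1 := (Complex.abs_re_le_norm (z - ⟨α + p.1 * h + h / 2, β + p.2 * h + h / 2⟩)).trans_lt hz
    have h2 := (Complex.abs_im_le_norm (z - ⟨α + p.1 * h + h / 2, β + p.2 * h + h / 2⟩)).trans_lt hz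
    rw [Complex.sub_re] at h1
    rw [Complex.sub_im] at h2
    simp only at h1 h2
    rw [abs_lt] at h1 h2
    rw [Metric.mem_ball, Complex.dist_eq]
    have h3 : |z.re - c.re| ≤ r / 2 := by
      rw [abs_le]
      constructor <;> nlinarith [h1.1, h1.2]
    have h4 : |z.im - c.im| ≤ r / 2 := by
      rw [abs_le]
      constructor <;> nlinarith [h2.1, h2.2]
    have h5 : ‖z - c‖ ^ 2 = (z.re - c.re) ^ 2 + (z.im - c.im) ^ 2 := by
      rw [← Complex.normSq_eq_norm_sq, Complex.normSq_apply, Complex.sub_re, Complex.sub_im]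
      ring
    have h6 : (z.re - c.re) ^ 2 ≤ (r / 2) ^ 2 := by
      rw [← sq_abs (z.re - c.re)]
      exact pow_le_pow_left₀ (abs_nonneg _) h3 2
    have h7 : (z.im - c.im) ^ 2 ≤ (r / 2) ^ 2 := by
      rw [← sq_abs (z.im - c.im)]
      exact pow_le_pow_left₀ (abs_nonneg _) h4 2
    have h8 : ‖z - c‖ ^ 2 < r ^ 2 := by
      rw [h5]
      nlinarith [sq_pos_of_pos hr]
    exact lt_of_pow_lt_pow_left₀ 2 hr.le h8
  · intro z hz h0
    rw [hrad, Metric.mem_ball, Complex.dist_eq] at hz
    have h1 := (Complex.abs_re_le_norm (z - ⟨α + p.1 * h + h / 2, β + p.2 * h + h / 2⟩)).trans_lt hz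
    have h2 := (Complex.abs_im_le_norm (z - ⟨α + p.1 * h + h / 2, β + p.2 * h + h / 2⟩)).trans_lt hz
    rw [Complex.sub_re] at h1
    rw [Complex.sub_im] at h2
    simp only at h1 h2
    rw [abs_lt] at h1 h2
    apply hno
    exact ⟨z.re, z.im, by linarith [h1.1], by linarith [h1.2], by linarith [h2.1],
      by linarith [h2.2], h0⟩

end Pool.Agent.H19.RD
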