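import Pool.Agent.H76.MB.Bez

/-!
# A plane algebraic curve of degree `n` misses a disc of radius `r / (20 n)` in every disc of
radius `r`
-/

namespace Pool.Agent.H19.RD

open MvPolynomial Finset

/-- **Bezout**: number of common zeros -/
lemma bez_pts (P Q : MvPolynomial (Fin 2) ℝ) (hP : P ≠ 0) (hQ : Q ≠ 0) (h : IsRelPrime P Q)
    (T : Finset (Fin 2 → ℝ)) (hT : ∀ t ∈ T, eval t P = 0 ∧ eval t Q = 0) :
    T.card ≤ P.totalDegree * Q.totalDegree := by
  classical
  let φ : MvPolynomial (Fin 2) ℝ →ₗ[ℝ] (T → ℝ) :=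
    { toFun := fun A t => eval t.1 A
      map_add' := fun A B => by ext t; simp
      map_smul' := fun r A => by ext t; simp [smul_eval] }
  have hsep : ∀ s t : T, s ≠ t → ∃ A : MvPolynomial (Fin 2) ℝ, eval s.1 A = 1 ∧ eval t.1 A = 0 := by
    intro s t hst
    have : ∃ i, s.1 i ≠ t.1 i := by
      by_contra hcon
      push Not at hcon
      exact hst (Subtype.ext (funext hcon))
    obtain ⟨i, hi⟩ := this
    have hi' : s.1 i - t.1 i ≠ 0 := sub_ne_zero.2 hi
    refine ⟨C (s.1 i - t.1 i)⁻¹ * (X i - C (t.1 i)), ?_, ?_⟩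
    · simp [inv_mul_cancel₀ hi']
    · simp
  have hlag : ∀ s : T, ∃ A : MvPolynomial (Fin 2) ℝ, ∀ t : T, eval t.1 A = if t = s then 1 else 0 := by
    intro s
    choose A hA using fun t : {t : T // t ≠ s} => hsep s t.1 (Ne.symm t.2)
    refine ⟨∏ t, A t, ?_⟩
    intro t
    rw [eval_prod]
    split_ifs with hts
    · subst hts
      exact Finset.prod_eq_one fun t' _ => (hA t').1
    · exact Finset.prod_eq_zero (Finset.mem_univ ⟨t, hts⟩) (hA ⟨t, hts⟩).2
  have hsurj : Function.Surjective φ := by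
    intro v
    choose A hA using hlag
    refine ⟨∑ s, C (v s) * A s, ?_⟩
    funext t
    show eval t.1 (∑ s, C (v s) * A s) = v t
    rw [map_sum]
    rw [Finset.sum_eq_single t]
    · rw [map_mul, eval_C, hA t t, if_pos rfl, mul_one]
    · intro s _ hst
      rw [map_mul, eval_C, hA s t, if_neg (Ne.symm hst), mul_zero]
    · intro h; exact absurd (Finset.mem_univ t) h
  have h1 : ∀ A, φ (P * A) = 0 := by
    intro A
    funext t
    show eval t.1 (P * A) = 0
    rw [map_mul, (hT t.1 t.2).1, zero_mul]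
  have h2 : ∀ A, φ (Q * A) = 0 := by
    intro A
    funext t
    show eval t.1 (Q * A) = 0
    rw [map_mul, (hT t.1 t.2).2, zero_mul]
  have h3 := (MbH.bezout P Q hP hQ h φ h1 h2 hsurj).2
  rw [Module.finrank_fintype_fun_eq_card, Fintype.card_coe] at h3
  exact h3

lemma pderiv_deg (f : MvPolynomial (Fin 2) ℝ) (i : Fin 2) :
    (pderiv i f).totalDegree ≤ f.totalDegree - 1 := by
  classical
  conv_lhs => rw [f.as_sum, map_sum]
  refine totalDegree_finsetSum_le ?_
  intro d hd
  rw [pderiv_monomial]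
  by_cases h0 : d i = 0
  · rw [h0]; simp
  · refine (totalDegree_monomial_le _ _).trans ?_
    have h1 : (d.sum fun _ e => e) ≤ f.totalDegree := le_totalDegree hd
    rw [Finsupp.sum_fintype _ _ (fun _ => rfl)] at h1 ⊢
    simp only [Fin.sum_univ_two, Finsupp.coe_tsub, Pi.sub_apply, id] at h1 ⊢
    fin_cases i
    · simp at h0 ⊢
      omega
    · simp at h0 ⊢
      omega

/-- value on a vertical line -/
lemma eval_line (f : MvPolynomial (Fin 2) ℝ) (x t : ℝ) :
    Polynomial.eval t (aeval ![Polynomial.C x, Polynomial.X] f) = eval ![x, t] f := by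
  induction f using MvPolynomial.induction_on with
  | C a => simp
  | add p q hp hq => simp only [map_add, Polynomial.eval_add, hp, hq]
  | mul_X p i hp =>
      rw [map_mul, map_mul, Polynomial.eval_mul, hp]
      congr 1
      fin_cases i <;> simp

lemma deriv_line (f : MvPolynomial (Fin 2) ℝ) (x : ℝ) :
    Polynomial.derivative (aeval ![Polynomial.C x, Polynomial.X] f) =
      aeval ![Polynomial.C x, Polynomial.X] (pderiv 1 f) := by
  induction f using MvPolynomial.induction_on with
  | C a => simp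
  | add p q hp hq => simp only [map_add, hp, hq]
  | mul_X p i hp =>
      rw [map_mul, Polynomial.derivative_mul, hp, pderiv_mul, map_add, map_mul, map_mul]
      congr 1
      fin_cases i <;> simp [pderiv_X]

lemma hasDerivAt_line (f : MvPolynomial (Fin 2) ℝ) (x t : ℝ) :
    HasDerivAt (fun t => eval ![x, t] f) (eval ![x, t] (pderiv 1 f)) t := by
  have h := (aeval ![Polynomial.C x, Polynomial.X] f : Polynomial ℝ).hasDerivAt t
  rw [deriv_line, eval_line] at h
  refine h.congr_of_eventuallyEq ?_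
  filter_upwards with s
  exact (eval_line f x s).symm

lemma cont_eval (f : MvPolynomial (Fin 2) ℝ) :
    Continuous (fun p : ℝ × ℝ => eval ![p.1, p.2] f) := by
  have h : Continuous (fun p : ℝ × ℝ => (![p.1, p.2] : Fin 2 → ℝ)) := by
    refine continuous_pi fun i => ?_
    fin_cases i
    · exact continuous_fst
    · exact continuous_snd
  exact (MvPolynomial.continuous_eval f).comp h

/-- if `f` has a zero in a closed rectangle, but none on its right side, upper and lower side,
then `f` and `∂f/∂y` have a common zero in the rectangle -/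
lemma crit (f : MvPolynomial (Fin 2) ℝ) (x1 x2 y1 y2 : ℝ)
    (hz : ∃ x y, x1 ≤ x ∧ x ≤ x2 ∧ y1 ≤ y ∧ y ≤ y2 ∧ eval ![x, y] f = 0)
    (hr : ∀ y, y1 ≤ y → y ≤ y2 → eval ![x2, y] f ≠ 0)
    (hb : ∀ x, x1 ≤ x → x ≤ x2 → eval ![x, y1] f ≠ 0)
    (ht : ∀ x, x1 ≤ x → x ≤ x2 → eval ![x, y2] f ≠ 0) :
    ∃ x y, x1 ≤ x ∧ x < x2 ∧ y1 < y ∧ y < y2 ∧ eval ![x, y] f = 0 ∧
      eval ![x, y] (pderiv 1 f) = 0 := by
  let K : Set (ℝ × ℝ) := (Set.Icc x1 x2 ×ˢ Set.Icc y1 y2) ∩ {p | eval ![p.1, p.2] f = 0}
  have hK : IsCompact K := by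
    apply (isCompact_Icc.prod isCompact_Icc).inter_right
    exact isClosed_singleton.preimage (cont_eval f)
  have hne : K.Nonempty := by
    obtain ⟨x, y, h1, h2, h3, h4, h5⟩ := hz
    exact ⟨(x, y), ⟨⟨h1, h2⟩, ⟨h3, h4⟩⟩, h5⟩
  obtain ⟨⟨a, b⟩, hab, hmax⟩ := hK.exists_isMaxOn hne continuous_fst.continuousOn
  obtain ⟨⟨⟨ha1, ha2⟩, ⟨hb1, hb2⟩⟩, h0⟩ := hab
  change eval ![a, b] f = 0 at h0
  change x1 ≤ a at ha1
  change a ≤ x2 at ha2
  change y1 ≤ b at hb1
  change b ≤ y2 at hb2
  have ha2' : a < x2 := by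
    rcases ha2.lt_or_eq with h | h
    · exact h
    · exfalso; subst h; exact hr b hb1 hb2 h0
  have hb1' : y1 < b := by
    rcases hb1.lt_or_eq with h | h
    · exact h
    · exfalso; subst h; exact hb a ha1 ha2 h0
  have hb2' : b < y2 := by
    rcases hb2.lt_or_eq with h | h
    · exact h
    · exfalso; subst h; exact ht a ha1 ha2 h0
  refine ⟨a, b, ha1, ha2', hb1', hb2', h0, ?_⟩
  by_contra hd
  -- a sign change on the vertical line through the extreme point
  obtain ⟨u, v, hu, hv, huv, hu1, hv2⟩ : ∃ u v : ℝ, u < b ∧ b < v ∧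
      eval ![a, u] f * eval ![a, v] f < 0 ∧ y1 < u ∧ v < y2 := by
    have hder := hasDerivAt_line f a b
    have hslope := hder.tendsto_slope
    -- slope is eventually of the sign of the derivative
    have hev : ∀ᶠ t in nhdsWithin b {b}ᶜ, 0 < slope (fun t => eval ![a, t] f) b t *
        eval ![a, b] (pderiv 1 f) := by
      have h1 := hslope.mul_const (eval ![a, b] (pderiv 1 f))
      have h2 : 0 < eval ![a, b] (pderiv 1 f) * eval ![a, b] (pderiv 1 f) := by
        exact mul_self_pos.2 hd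
      exact h1.eventually (lt_mem_nhds h2)
    rw [eventually_nhdsWithin_iff, Metric.eventually_nhds_iff] at hev
    obtain ⟨ε, hε, hev⟩ := hev
    set η := min (ε / 2) (min ((b - y1) / 2) ((y2 - b) / 2)) with hη
    have hη0 : 0 < η := by
      apply lt_min (by linarith)
      exact lt_min (by linarith) (by linarith)
    have hη1 : η ≤ ε / 2 := min_le_left _ _
    have hη2 : η ≤ (b - y1) / 2 := (min_le_right _ _).trans (min_le_left _ _)
    have hη3 : η ≤ (y2 - b) / 2 := (min_le_right _ _).trans (min_le_right _ _)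
    refine ⟨b - η, b + η, by linarith, by linarith, ?_, by linarith, by linarith⟩
    have e1 := @hev (b - η) (by rw [Real.dist_eq]; simp [abs_of_pos hη0]; linarith) (by simp [hη0.ne'])
    have e2 := @hev (b + η) (by rw [Real.dist_eq]; simp [abs_of_pos hη0]; linarith) (by simp [hη0.ne'])
    rw [slope_def_field, h0] at e1 e2
    set d := eval ![a, b] (pderiv 1 f)
    set A := eval ![a, b - η] f
    set B := eval ![a, b + η] f
    have e1' : 0 < - (A * d) := by
      have : (A - 0) / (b - η - b) * d = - (A * d) / η := by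
        have h9 : b - η - b = - η := by ring
        rw [h9, sub_zero, div_neg, neg_mul, neg_div, div_mul_eq_mul_div]
      rw [this] at e1
      exact (div_pos_iff_of_pos_right hη0).1 e1
    have e2' : 0 < B * d := by
      have : (B - 0) / (b + η - b) * d = (B * d) / η := by
        have h9 : b + η - b = η := by ring
        rw [h9, sub_zero, div_mul_eq_mul_div]
      rw [this] at e2
      exact (div_pos_iff_of_pos_right hη0).1 e2
    have hd2 : 0 < d * d := mul_self_pos.2 hd
    by_contra hcon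
    push Not at hcon
    nlinarith [mul_pos e1' e2', mul_nonneg hcon hd2.le]
  -- move to the right
  have hcont : Continuous (fun x : ℝ => eval ![x, u] f * eval ![x, v] f) := by
    have h1 := (cont_eval f).comp (Continuous.prodMk_left u)
    have h2 := (cont_eval f).comp (Continuous.prodMk_left v)
    exact h1.mul h2
  have hev : ∀ᶠ x in nhds a, eval ![x, u] f * eval ![x, v] f < 0 :=
    hcont.continuousAt.eventually (gt_mem_nhds huv)
  rw [Metric.eventually_nhds_iff] at hev
  obtain ⟨ε, hε, hev⟩ := hev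
  set x' := a + min (ε / 2) ((x2 - a) / 2) with hx'
  have hm0 : 0 < min (ε / 2) ((x2 - a) / 2) := lt_min (by linarith) (by linarith)
  have hm1 : min (ε / 2) ((x2 - a) / 2) ≤ ε / 2 := min_le_left _ _
  have hm2 : min (ε / 2) ((x2 - a) / 2) ≤ (x2 - a) / 2 := min_le_right _ _
  have hneg := @hev x' (by rw [Real.dist_eq, hx', add_sub_cancel_left, abs_of_pos hm0]; linarith)
  have hcy : ContinuousOn (fun t : ℝ => eval ![x', t] f) (Set.uIcc u v) := by
    exact ((cont_eval f).comp (Continuous.prodMk_right x')).continuousOn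
  obtain ⟨t, ht1, ht2⟩ : ∃ t ∈ Set.uIcc u v, eval ![x', t] f = 0 := by
    have := intermediate_value_uIcc hcy
    apply this
    rcases mul_neg_iff.1 hneg with ⟨h1, h2⟩ | ⟨h1, h2⟩
    · exact Set.mem_uIcc.2 (Or.inr ⟨h2.le, h1.le⟩)
    · exact Set.mem_uIcc.2 (Or.inl ⟨h1.le, h2.le⟩)
  have huv' : u ≤ v := by linarith
  rw [Set.uIcc_of_le huv'] at ht1
  have hmem : ((x', t) : ℝ × ℝ) ∈ K := by
    refine ⟨⟨⟨?_, ?_⟩, ⟨?_, ?_⟩⟩, ht2⟩
    · show x1 ≤ x'; rw [hx']; linarith
    · show x' ≤ x2; rw [hx']; linarith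
    · show y1 ≤ t; linarith [ht1.1]
    · show t ≤ y2; linarith [ht1.2]
  have := hmax hmem
  simp only at this
  have h3 : x' ≤ a := this
  rw [hx'] at h3
  linarith

end Pool.Agent.H19.RD
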