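import Pool.Agent.H19.RD.Curve

/-!
# The real polynomial
-/

namespace Pool.Agent.H19.RD

open MvPolynomial

lemma uni (k : ℕ) (a : Fin k → ℝ) (h : ∀ x : ℝ, ∑ i, a i * x ^ (i : ℕ) = 0) : a = 0 := by
  classical
  have h1 : (∑ i : Fin k, Polynomial.C (a i) * Polynomial.X ^ (i : ℕ)) = (0 : Polynomial ℝ) := by
    apply Polynomial.funext
    intro x
    rw [Polynomial.eval_finsetSum, Polynomial.eval_zero, ← h x]
    refine Finset.sum_congr rfl fun i _ => ?_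
    simp
  funext i
  have h2 := congrArg (fun q => Polynomial.coeff q (i : ℕ)) h1
  simp only [Polynomial.finsetSum_coeff, Polynomial.coeff_C_mul, Polynomial.coeff_X_pow,
    Polynomial.coeff_zero] at h2
  rw [Finset.sum_eq_single i] at h2
  · simpa using h2
  · intro j _ hj
    have : ¬ ((i : ℕ) = (j : ℕ)) := fun h => hj (Fin.ext h.symm)
    simp [this]
  · intro h; exact absurd (Finset.mem_univ i) h

lemma biv (k : ℕ) (c : Fin k × Fin k → ℤ)
    (h : ∀ x y : ℝ, ∑ ij : Fin k × Fin k, (c ij : ℝ) * (x ^ (ij.1 : ℕ) * y ^ (ij.2 : ℕ)) = 0) :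
    c = 0 := by
  have h1 : ∀ y : ℝ, (fun i : Fin k => ∑ j : Fin k, (c (i, j) : ℝ) * y ^ (j : ℕ)) = 0 := by
    intro y
    apply uni
    intro x
    rw [← h x y, Fintype.sum_prod_type]
    refine Finset.sum_congr rfl fun i _ => ?_
    rw [Finset.sum_mul]
    refine Finset.sum_congr rfl fun j _ => ?_
    ring
  funext ij
  obtain ⟨i, j⟩ := ij
  have h2 : (fun j : Fin k => (c (i, j) : ℝ)) = 0 := by
    apply uni
    intro y
    exact congrFun (h1 y) i
  have h3 := congrFun h2 j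
  simp only [Pi.zero_apply] at h3
  exact_mod_cast h3

/-- first coordinate of the normalised point, as a polynomial -/
noncomputable def L1 (a b : ℂ) : MvPolynomial (Fin 2) ℝ :=
  C ((b - a)⁻¹).re * (X 0 - C a.re) - C ((b - a)⁻¹).im * (X 1 - C a.im)

/-- second coordinate of the normalised point divided by `√D` -/
noncomputable def L2 (a b : ℂ) (s : ℝ) : MvPolynomial (Fin 2) ℝ :=
  C (((b - a)⁻¹).im / s) * (X 0 - C a.re) + C (((b - a)⁻¹).re / s) * (X 1 - C a.im)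

lemma L1_deg (a b : ℂ) : (L1 a b).totalDegree ≤ 1 := by
  unfold L1
  have h : ∀ (i : Fin 2) (u v : ℝ), (C u * (X i - C v) : MvPolynomial (Fin 2) ℝ).totalDegree ≤ 1 := by
    intro i u v
    refine (totalDegree_mul _ _).trans ?_
    rw [totalDegree_C, zero_add]
    refine (totalDegree_sub _ _).trans ?_
    rw [totalDegree_X, totalDegree_C]
    simp
  refine (totalDegree_sub _ _).trans ?_
  exact max_le (h _ _ _) (h _ _ _)

lemma L2_deg (a b : ℂ) (s : ℝ) : (L2 a b s).totalDegree ≤ 1 := by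
  unfold L2
  have h : ∀ (i : Fin 2) (u v : ℝ), (C u * (X i - C v) : MvPolynomial (Fin 2) ℝ).totalDegree ≤ 1 := by
    intro i u v
    refine (totalDegree_mul _ _).trans ?_
    rw [totalDegree_C, zero_add]
    refine (totalDegree_sub _ _).trans ?_
    rw [totalDegree_X, totalDegree_C]
    simp
  refine (totalDegree_add _ _).trans ?_
  exact max_le (h _ _ _) (h _ _ _)

lemma L1_eval (a b z : ℂ) : eval ![z.re, z.im] (L1 a b) = (nrm a b z).re := by
  unfold L1 nrm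
  rw [div_eq_mul_inv, Complex.mul_re]
  simp
  ring

lemma L2_eval (a b z : ℂ) (s : ℝ) : eval ![z.re, z.im] (L2 a b s) = (nrm a b z).im / s := by
  unfold L2 nrm
  rw [div_eq_mul_inv (z - a) (b - a), Complex.mul_im]
  simp
  ring

/-- the polynomial of the curve -/
noncomputable def G (k : ℕ) (c : Fin k × Fin k → ℤ) (a b : ℂ) (s : ℝ) : MvPolynomial (Fin 2) ℝ :=
  ∑ ij : Fin k × Fin k, C (c ij : ℝ) * ((L1 a b) ^ (ij.1 : ℕ) * (L2 a b s) ^ (ij.2 : ℕ))

lemma G_eval (k : ℕ) (c : Fin k × Fin k → ℤ) (a b z : ℂ) (s : ℝ) :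
    eval ![z.re, z.im] (G k c a b s) = ∑ ij : Fin k × Fin k,
      (c ij : ℝ) * (((nrm a b z).re) ^ (ij.1 : ℕ) * ((nrm a b z).im / s) ^ (ij.2 : ℕ)) := by
  unfold G
  rw [map_sum]
  refine Finset.sum_congr rfl fun ij _ => ?_
  rw [map_mul, map_mul, map_pow, map_pow, eval_C, L1_eval, L2_eval]

lemma G_deg (k : ℕ) (c : Fin k × Fin k → ℤ) (a b : ℂ) (s : ℝ) :
    (G k c a b s).totalDegree ≤ 2 * k := by
  unfold G
  refine totalDegree_finsetSum_le ?_
  intro ij _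
  refine (totalDegree_mul _ _).trans ?_
  rw [totalDegree_C, zero_add]
  refine (totalDegree_mul _ _).trans ?_
  have h1 := (totalDegree_pow (L1 a b) (ij.1 : ℕ)).trans (Nat.mul_le_mul_left _ (L1_deg a b))
  have h2 := (totalDegree_pow (L2 a b s) (ij.2 : ℕ)).trans (Nat.mul_le_mul_left _ (L2_deg a b s))
  have h3 := ij.1.2
  have h4 := ij.2.2
  omega

lemma G_ne (k : ℕ) (c : Fin k × Fin k → ℤ) (a b : ℂ) (s : ℝ) (hab : a ≠ b) (hs : s ≠ 0)
    (hc : c ≠ 0) : G k c a b s ≠ 0 := by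
  intro h
  apply hc
  apply biv
  intro x y
  let z : ℂ := a + (b - a) * ⟨x, y * s⟩
  have hz : nrm a b z = ⟨x, y * s⟩ := by
    simp only [nrm, z]
    have : b - a ≠ 0 := sub_ne_zero.2 hab.symm
    field_simp
    ring
  have h1 := G_eval k c a b z s
  rw [h, map_zero, hz] at h1
  rw [h1]
  refine Finset.sum_congr rfl fun ij _ => ?_
  simp only
  rw [mul_div_cancel_right₀ _ hs]

/-- **curve of logarithmic degree** -/
theorem curve : ∃ K : ℝ, 0 < K ∧ ∀ H : ℕ, 2 ≤ H → ∀ S : Set ℂ,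
    (∀ z ∈ S, ∀ w ∈ S, ∃ q : ℚ, dist z w = q) → ∀ a ∈ S, ∀ b ∈ S, a ≠ b →
    HeightLE H (dist a b) → ∃ F : MvPolynomial (Fin 2) ℝ, F ≠ 0 ∧
      (F.totalDegree : ℝ) ≤ K * Real.log H ∧ ∀ z ∈ Low S a b H, eval ![z.re, z.im] F = 0 := by
  obtain ⟨K, hK, hform⟩ := form_vanish
  refine ⟨54 * K, by positivity, ?_⟩
  intro H hH S hS a ha b hb hab h0
  obtain ⟨D, hD1, hDH, hco⟩ := coords H hH S hS a b ha hb hab h0
  have hHpow : 2 ≤ H ^ 27 := by
    calc 2 ≤ H := hH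
      _ = H ^ 1 := (pow_one H).symm
      _ ≤ H ^ 27 := Nat.pow_le_pow_right (by omega) (by norm_num)
  let X : Set (ℤ × ℤ × ℤ) := {x | ∃ z ∈ Low S a b H, 1 ≤ x.2.2 ∧ x.2.2 ≤ (H ^ 27 : ℕ) ∧
    |x.1| ≤ (H ^ 27 : ℕ) ∧ |x.2.1| ≤ (H ^ 27 : ℕ) ∧ (nrm a b z).re = x.1 / x.2.2 ∧
    (nrm a b z).im = x.2.1 * Real.sqrt D / x.2.2}
  obtain ⟨k, hk1, hkC, c, hc0, hc⟩ := hform (H ^ 27) D hHpow hD1 hDH X (by
    rintro ⟨A, B, M⟩ ⟨z, hz, h1, h2, h3, h4, -, -⟩
    refine ⟨h3, h4, ?_⟩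
    rw [abs_of_pos (by simp only at h1 ⊢; omega)]
    exact h2) (by
    rintro ⟨A, B, M⟩ ⟨z, hz, h1, h2, h3, h4, h5, h6⟩ ⟨A', B', M'⟩ ⟨w, hw, g1, g2, g3, g4, g5, g6⟩
    exact pair S hS a b ha hb hab D z w hz.1 hw.1 A B M A' B' M' h1 g1 h5 h6 g5 g6)
  have hs : Real.sqrt D ≠ 0 := by
    have : (0 : ℝ) < D := by exact_mod_cast hD1
    exact (Real.sqrt_pos.2 this).ne'
  refine ⟨G k c a b (Real.sqrt D), G_ne k c a b _ hab hs hc0, ?_, ?_⟩
  · have h1 : ((G k c a b (Real.sqrt D)).totalDegree : ℝ) ≤ 2 * k := by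
      exact_mod_cast G_deg k c a b (Real.sqrt D)
    have h2 : Real.log ((H ^ 27 : ℕ) : ℝ) = 27 * Real.log H := by
      push_cast
      rw [Real.log_pow]
      norm_num
    rw [h2] at hkC
    linarith
  · intro z hz
    obtain ⟨A, B, M, h1, h2, h3, h4, h5, h6⟩ := hco z hz
    have h7 := hc (A, B, M) ⟨z, hz, h1, h2, h3, h4, h5, h6⟩
    have hM : (M : ℝ) ≠ 0 := by
      have : (0 : ℝ) < M := by exact_mod_cast h1
      exact this.ne'
    have h8 : (M : ℝ) ^ (2 * k) * eval ![z.re, z.im] (G k c a b (Real.sqrt D)) =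
        ((ev k c (A, B, M) : ℤ) : ℝ) := by
      rw [ev_cast, G_eval, Finset.mul_sum]
      unfold ev
      refine Finset.sum_congr rfl fun ij _ => ?_
      obtain ⟨i, j⟩ := ij
      have hi := i.2
      have hj := j.2
      simp only
      have h9 : (nrm a b z).im / Real.sqrt D = B / M := by
        rw [h6]; field_simp
      rw [h9, h5]
      have h10 : 2 * k = (i : ℕ) + (j : ℕ) + (2 * k - i - j) := by omega
      have h11 : (M : ℝ) ^ (2 * k) = (M : ℝ) ^ (i : ℕ) * (M : ℝ) ^ (j : ℕ) *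
          (M : ℝ) ^ (2 * k - i - j) := by
        rw [← pow_add, ← pow_add, ← h10]
      rw [h11, div_pow, div_pow]
      field_simp
    rw [h7] at h8
    have h12 : (M : ℝ) ^ (2 * k) ≠ 0 := pow_ne_zero _ hM
    simpa [h12] using h8

end Pool.Agent.H19.RD
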